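import Pool.Agent.W5h70.LP.Quad

open MeasureTheory Real
open scoped RealInnerProductSpace

namespace Pool.Agent.W5h70.LP

lemma integrable_comp_equiv {k : ℕ} (T : EV k ≃ₗ[ℝ] EV k) {f : EV k → ℝ} (hf : Integrable f) :
    Integrable (fun y => f (T y)) := by
  have hdet : LinearMap.det (T : EV k →ₗ[ℝ] EV k) ≠ 0 :=
    (LinearEquiv.isUnit_det' T).ne_zero
  have h1 := Measure.map_linearMap_addHaar_eq_smul_addHaar (volume : Measure (EV k)) hdet
  have hemb : MeasurableEmbedding (T : EV k → EV k) :=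
    T.toContinuousLinearEquiv.toHomeomorph.measurableEmbedding
  have h2 := hemb.integrable_map_iff (μ := (volume : Measure (EV k))) (g := f)
  have h3 : Measure.map (T : EV k → EV k) volume
      = Measure.map ((T : EV k →ₗ[ℝ] EV k) : EV k → EV k) volume := rfl
  rw [h3, h1] at h2
  exact h2.mp (hf.smul_measure ENNReal.ofReal_ne_top)

lemma integrable_quad {k n : ℕ} (e : EV k →ₗ[ℝ] EV n) (he : Function.Injective e)
    {x : Fin n → ℝ} (hx : ∀ l, 0 < x l) :
    Integrable (fun y : EV k => rexp (-∑ l, x l * ((e y) l) ^ 2)) := by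
  obtain ⟨T, hT⟩ := exists_equiv (dmap x e) (dmap_injective hx e he)
  have hT2 : ∀ y, ‖T y‖ ^ 2 = ∑ l, x l * ((e y) l) ^ 2 := by
    intro y; rw [hT, norm_dmap_sq (fun l => (hx l).le)]
  have := integrable_comp_equiv T (integrable_gauss k)
  simpa only [hT2] using this

lemma Psi_nonneg {k n : ℕ} (e : EV k →ₗ[ℝ] EV n) (x : Fin n → ℝ) : 0 ≤ Psi e x :=
  integral_nonneg fun _ => (exp_pos _).le

section
variable {k n : ℕ} {ι : Type} [Fintype ι] [DecidableEq ι]

/-- Weights attached to a finite set of switched-on factors. -/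
noncomputable def xA (δ : ℝ) (s : ι → ℝ) (A : Finset (Fin n × ι)) (l : Fin n) : ℝ :=
  δ + ∑ i, if (l, i) ∈ A then s i else 0

/-- Product weight of a set of switched-on factors. -/
noncomputable def wA (β : Fin n × ι → ℝ) (A : Finset (Fin n × ι)) : ℝ :=
  ∏ q, if q ∈ A then β q else 1 - β q

/-- The integral of the product of two-point mixtures. -/
noncomputable def bI (e : EV k →ₗ[ℝ] EV n) (δ : ℝ) (s : ι → ℝ) (β : Fin n × ι → ℝ) : ℝ :=
  ∫ y : EV k, rexp (-∑ l, δ * ((e y) l) ^ 2) *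
    ∏ q : Fin n × ι, (1 - β q + β q * rexp (-(s q.2 * ((e y) q.1) ^ 2)))

lemma xA_pos {δ : ℝ} (hδ : 0 < δ) {s : ι → ℝ} (hs : ∀ i, 0 ≤ s i) (A : Finset (Fin n × ι))
    (l : Fin n) : 0 < xA δ s A l := by
  unfold xA
  have : 0 ≤ ∑ i, (if (l, i) ∈ A then s i else 0) := by
    apply Finset.sum_nonneg
    intro i _
    split_ifs
    · exact hs i
    · exact le_rfl
  linarith

lemma bI_eq_sum (e : EV k →ₗ[ℝ] EV n) (he : Function.Injective e) {δ : ℝ} (hδ : 0 < δ)
    {s : ι → ℝ} (hs : ∀ i, 0 ≤ s i) (β : Fin n × ι → ℝ) :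
    bI e δ s β = ∑ A : Finset (Fin n × ι), wA β A * Psi e (xA δ s A) := by
  have h1 : ∀ y : EV k, rexp (-∑ l, δ * ((e y) l) ^ 2) *
      ∏ q : Fin n × ι, (1 - β q + β q * rexp (-(s q.2 * ((e y) q.1) ^ 2)))
      = ∑ A : Finset (Fin n × ι), wA β A * rexp (-∑ l, xA δ s A l * ((e y) l) ^ 2) := by
    intro y
    have h2 : ∏ q : Fin n × ι, (1 - β q + β q * rexp (-(s q.2 * ((e y) q.1) ^ 2)))
        = ∑ A : Finset (Fin n × ι), (∏ q ∈ A, β q * rexp (-(s q.2 * ((e y) q.1) ^ 2))) *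
          ∏ q ∈ Finset.univ \ A, (1 - β q) := by
      have h3 := Finset.prod_add (fun q : Fin n × ι => β q * rexp (-(s q.2 * ((e y) q.1) ^ 2)))
        (fun q => 1 - β q) Finset.univ
      rw [Finset.powerset_univ] at h3
      rw [← h3]
      refine Finset.prod_congr rfl fun q _ => ?_
      ring
    rw [h2, Finset.mul_sum]
    refine Finset.sum_congr rfl fun A _ => ?_
    have h4 : wA β A = (∏ q ∈ A, β q) * ∏ q ∈ Finset.univ \ A, (1 - β q) := by
      unfold wA
      rw [Finset.prod_ite]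
      congr 1
      · congr 1; ext q; simp
      · congr 1; ext q; simp
    have h5 : ∑ l, xA δ s A l * ((e y) l) ^ 2 = ∑ l, δ * ((e y) l) ^ 2
        + ∑ q ∈ A, s q.2 * ((e y) q.1) ^ 2 := by
      have h6 : ∑ q ∈ A, s q.2 * ((e y) q.1) ^ 2
          = ∑ l, ∑ i, if (l, i) ∈ A then s i * ((e y) l) ^ 2 else 0 := by
        rw [← Fintype.sum_prod_type' (f := fun l i => if (l, i) ∈ A then s i * ((e y) l) ^ 2 else 0)]
        rw [Finset.sum_ite_mem]
        simp
      rw [h6, ← Finset.sum_add_distrib]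
      refine Finset.sum_congr rfl fun l _ => ?_
      unfold xA
      rw [add_mul, Finset.sum_mul]
      congr 1
      refine Finset.sum_congr rfl fun i _ => ?_
      split_ifs <;> simp
    rw [h4, h5, Finset.prod_mul_distrib, neg_add, Real.exp_add, ← Finset.sum_neg_distrib,
      Real.exp_sum, ← Finset.sum_neg_distrib, Real.exp_sum]
    ring
  unfold bI
  simp only [h1]
  rw [integral_finsetSum]
  · refine Finset.sum_congr rfl fun A _ => ?_
    rw [integral_const_mul]; rfl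
  · intro A _
    exact (integrable_quad e he (xA_pos hδ hs A)).const_mul _

lemma wA_nonneg {β : Fin n × ι → ℝ} (h0 : ∀ q, 0 ≤ β q) (h1 : ∀ q, β q ≤ 1)
    (A : Finset (Fin n × ι)) : 0 ≤ wA β A := by
  unfold wA
  apply Finset.prod_nonneg
  intro q _
  split_ifs
  · exact h0 q
  · linarith [h1 q]

lemma wA_mul_le {β β' : Fin n × ι → ℝ} (h0 : ∀ q, 0 ≤ β q) (h1 : ∀ q, β q ≤ 1)
    (h0' : ∀ q, 0 ≤ β' q) (h1' : ∀ q, β' q ≤ 1) (A B : Finset (Fin n × ι)) :
    wA β A * wA β' B ≤ wA (β ⊓ β') (A ∩ B) * wA (β ⊔ β') (A ∪ B) := by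
  unfold wA
  rw [← Finset.prod_mul_distrib, ← Finset.prod_mul_distrib]
  apply Finset.prod_le_prod
  · intro q _
    apply mul_nonneg
    · split_ifs
      · exact h0 q
      · linarith [h1 q]
    · split_ifs
      · exact h0' q
      · linarith [h1' q]
  · intro q _
    have a0 := h0 q
    have a1 := h1 q
    have b0 := h0' q
    have b1 := h1' q
    simp only [Finset.mem_inter, Finset.mem_union, Pi.inf_apply, Pi.sup_apply]
    rcases le_total (β q) (β' q) with h | h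
    · rw [inf_eq_left.mpr h, sup_eq_right.mpr h]
      by_cases hA : q ∈ A <;> by_cases hB : q ∈ B <;> simp [hA, hB] <;> nlinarith
    · rw [inf_eq_right.mpr h, sup_eq_left.mpr h]
      by_cases hA : q ∈ A <;> by_cases hB : q ∈ B <;> simp [hA, hB] <;> nlinarith

theorem bI_super (e : EV k →ₗ[ℝ] EV n) (he : Function.Injective e) {δ : ℝ} (hδ : 0 < δ)
    {s : ι → ℝ} (hs : ∀ i, 0 ≤ s i) {β β' : Fin n × ι → ℝ} (h0 : ∀ q, 0 ≤ β q)
    (h1 : ∀ q, β q ≤ 1) (h0' : ∀ q, 0 ≤ β' q) (h1' : ∀ q, β' q ≤ 1) :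
    bI e δ s β * bI e δ s β' ≤ bI e δ s (β ⊓ β') * bI e δ s (β ⊔ β') := by
  rw [bI_eq_sum e he hδ hs, bI_eq_sum e he hδ hs, bI_eq_sum e he hδ hs, bI_eq_sum e he hδ hs]
  have hi0 : ∀ q, 0 ≤ (β ⊓ β') q := fun q => le_inf (h0 q) (h0' q)
  have hi1 : ∀ q, (β ⊓ β') q ≤ 1 := fun q => inf_le_of_left_le (h1 q)
  have hs0 : ∀ q, 0 ≤ (β ⊔ β') q := fun q => le_sup_of_le_left (h0 q)
  have hs1 : ∀ q, (β ⊔ β') q ≤ 1 := fun q => sup_le (h1 q) (h1' q)
  apply four_functions_theorem_univ (fun A => wA β A * Psi e (xA δ s A))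
    (fun A => wA β' A * Psi e (xA δ s A)) (fun A => wA (β ⊓ β') A * Psi e (xA δ s A))
    (fun A => wA (β ⊔ β') A * Psi e (xA δ s A))
  · exact fun A => mul_nonneg (wA_nonneg h0 h1 A) (Psi_nonneg _ _)
  · exact fun A => mul_nonneg (wA_nonneg h0' h1' A) (Psi_nonneg _ _)
  · exact fun A => mul_nonneg (wA_nonneg hi0 hi1 A) (Psi_nonneg _ _)
  · exact fun A => mul_nonneg (wA_nonneg hs0 hs1 A) (Psi_nonneg _ _)
  · intro A B
    have hw := wA_mul_le h0 h1 h0' h1' A B
    have hx := xA_pos (n := n) hδ hs (A ∩ B)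
    have hle : ∀ (C : Finset (Fin n × ι)), A ∩ B ⊆ C → ∀ l, 0 ≤ (xA δ s C - xA δ s (A ∩ B)) l := by
      intro C hC l
      rw [Pi.sub_apply]
      unfold xA
      have : ∑ i, (if (l, i) ∈ A ∩ B then s i else 0) ≤ ∑ i, if (l, i) ∈ C then s i else 0 := by
        apply Finset.sum_le_sum
        intro i _
        by_cases hi : (l, i) ∈ A ∩ B
        · rw [if_pos hi, if_pos (hC hi)]
        · rw [if_neg hi]
          split_ifs
          · exact hs i
          · exact le_rfl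
      linarith
    have hP := Psi_super e he hx (hle A Finset.inter_subset_left) (hle B Finset.inter_subset_right)
    have e1 : xA δ s (A ∩ B) + (xA δ s A - xA δ s (A ∩ B)) = xA δ s A := by abel
    have e2 : xA δ s (A ∩ B) + (xA δ s B - xA δ s (A ∩ B)) = xA δ s B := by abel
    have e3 : xA δ s A + (xA δ s B - xA δ s (A ∩ B)) = xA δ s (A ∪ B) := by
      funext l
      simp only [Pi.add_apply, Pi.sub_apply]
      unfold xA
      have : ∑ i, (if (l, i) ∈ A then s i else 0) + (∑ i, (if (l, i) ∈ B then s i else 0)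
          - ∑ i, (if (l, i) ∈ A ∩ B then s i else 0)) = ∑ i, if (l, i) ∈ A ∪ B then s i else 0 := by
        rw [← Finset.sum_sub_distrib, ← Finset.sum_add_distrib]
        refine Finset.sum_congr rfl fun i _ => ?_
        by_cases hA : (l, i) ∈ A <;> by_cases hB : (l, i) ∈ B <;> simp [hA, hB]
      linarith
    rw [e1, e2, e3] at hP
    show wA β A * Psi e (xA δ s A) * (wA β' B * Psi e (xA δ s B)) ≤
      wA (β ⊓ β') (A ∩ B) * Psi e (xA δ s (A ∩ B)) * (wA (β ⊔ β') (A ∪ B) * Psi e (xA δ s (A ∪ B)))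
    calc wA β A * Psi e (xA δ s A) * (wA β' B * Psi e (xA δ s B))
        = (wA β A * wA β' B) * (Psi e (xA δ s A) * Psi e (xA δ s B)) := by ring
      _ ≤ (wA (β ⊓ β') (A ∩ B) * wA (β ⊔ β') (A ∪ B)) *
          (Psi e (xA δ s (A ∩ B)) * Psi e (xA δ s (A ∪ B))) := by
        apply mul_le_mul hw hP (mul_nonneg (Psi_nonneg _ _) (Psi_nonneg _ _))
        exact mul_nonneg (wA_nonneg hi0 hi1 _) (wA_nonneg hs0 hs1 _)
      _ = _ := by ring

end

end Pool.Agent.W5h70.LP
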