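import Mathlib

open Filter Topology Set

namespace Pool.Agent.W5h70.LP

section
variable {n : ℕ}

/-- Folding step iterated: a supermodular function which is affine along the diagonal. -/
lemma fold (f : (Fin n → ℝ) → ℝ) (r : ℝ)
    (hsup : ∀ x y, f x + f y ≤ f (x ⊓ y) + f (x ⊔ y))
    (htr : ∀ x s, f (fun i => x i + s) = f x + r * s) (m : ℕ) :
    ∀ (x y : Fin n → ℝ) (ρ : ℝ), (∀ i, |y i - x i| ≤ ρ) →
      ∃ x' y' : Fin n → ℝ, (∀ i, x' i + y' i = x i + y i) ∧ f x + f y ≤ f x' + f y' ∧
        ∀ i, |y' i - x' i| ≤ ρ / 2 ^ m := by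
  induction m with
  | zero =>
    intro x y ρ h
    exact ⟨x, y, fun _ => rfl, le_rfl, fun i => by simpa using h i⟩
  | succ m ih =>
    intro x y ρ h
    have hstep : ∀ i, |((x ⊔ y) i + -(ρ / 4)) - ((x ⊓ y) i + ρ / 4)| ≤ ρ / 2 := by
      intro i
      have h1 := abs_le.mp (h i)
      simp only [Pi.sup_apply, Pi.inf_apply]
      rcases le_total (x i) (y i) with hxy | hxy
      · rw [sup_eq_right.mpr hxy, inf_eq_left.mpr hxy, abs_le]
        constructor <;> linarith [h1.1, h1.2]
      · rw [sup_eq_left.mpr hxy, inf_eq_right.mpr hxy, abs_le]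
        constructor <;> linarith [h1.1, h1.2]
    obtain ⟨x', y', h1, h2, h3⟩ := ih (fun i => (x ⊓ y) i + ρ / 4)
      (fun i => (x ⊔ y) i + -(ρ / 4)) (ρ / 2) hstep
    refine ⟨x', y', fun i => ?_, ?_, fun i => ?_⟩
    · rw [h1 i]
      simp only [Pi.sup_apply, Pi.inf_apply]
      have : x i ⊓ y i + x i ⊔ y i = x i + y i := min_add_max (x i) (y i)
      linarith
    · have e1 := htr (x ⊓ y) (ρ / 4)
      have e2 := htr (x ⊔ y) (-(ρ / 4))
      rw [e1, e2] at h2
      have := hsup x y
      linarith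
    · have := h3 i
      rw [pow_succ]
      calc |y' i - x' i| ≤ ρ / 2 / 2 ^ m := this
        _ = ρ / (2 ^ m * 2) := by rw [div_div]; ring_nf

lemma continuous_of_mono_tr (f : (Fin n → ℝ) → ℝ) (r : ℝ) (hmono : Monotone f)
    (htr : ∀ x s, f (fun i => x i + s) = f x + r * s) : Continuous f := by
  have hle : ∀ x y, f x ≤ f y + r * dist x y := by
    intro x y
    rw [← htr]
    apply hmono
    intro i
    have := dist_le_pi_dist x y i
    rw [Real.dist_eq] at this
    have := le_abs_self (x i - y i)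
    simp only
    linarith
  rw [Metric.continuous_iff]
  intro x ε hε
  refine ⟨ε / (|r| + 1), by positivity, fun y hy => ?_⟩
  have h1 := hle x y
  have h2 := hle y x
  rw [dist_comm] at h1
  have h3 : r * dist y x ≤ |r| * dist y x := mul_le_mul_of_nonneg_right (le_abs_self r) dist_nonneg
  have h4 : |r| * dist y x ≤ |r| * (ε / (|r| + 1)) :=
    mul_le_mul_of_nonneg_left hy.le (abs_nonneg r)
  have h5 : |r| * (ε / (|r| + 1)) < ε := by
    rw [← mul_div_assoc, div_lt_iff₀ (by positivity)]
    nlinarith [abs_nonneg r]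
  rw [Real.dist_eq, abs_lt]
  constructor <;> linarith

lemma midpoint_le (f : (Fin n → ℝ) → ℝ) (r : ℝ)
    (hsup : ∀ x y, f x + f y ≤ f (x ⊓ y) + f (x ⊔ y))
    (htr : ∀ x s, f (fun i => x i + s) = f x + r * s) (hc : Continuous f) (x y : Fin n → ℝ) :
    f x + f y ≤ 2 * f (fun i => (x i + y i) / 2) := by
  have h0 : ∀ i, |y i - x i| ≤ dist y x := by
    intro i
    have := dist_le_pi_dist y x i
    rwa [Real.dist_eq] at this
  choose x' y' h1 h2 h3 using fun m => fold f r hsup htr m x y _ h0
  have hz : Tendsto (fun m : ℕ => dist y x / 2 ^ m) atTop (𝓝 0) := by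
    have h := tendsto_pow_atTop_nhds_zero_of_lt_one (r := (1 / 2 : ℝ)) (by norm_num) (by norm_num)
    have h' := h.const_mul (dist y x)
    rw [mul_zero] at h'
    refine h'.congr fun m => ?_
    rw [one_div, inv_pow]; rfl
  have hd : ∀ i, Tendsto (fun m => y' m i - x' m i) atTop (𝓝 0) := fun i =>
    squeeze_zero_norm (fun m => by rw [Real.norm_eq_abs]; exact h3 m i) hz
  have hx : Tendsto x' atTop (𝓝 (fun i => (x i + y i) / 2)) := by
    rw [tendsto_pi_nhds]
    intro i
    have h := ((hd i).const_sub (x i + y i)).div_const 2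
    rw [sub_zero] at h
    refine h.congr fun m => ?_
    have := h1 m i
    linarith
  have hy : Tendsto y' atTop (𝓝 (fun i => (x i + y i) / 2)) := by
    rw [tendsto_pi_nhds]
    intro i
    have h := ((hd i).const_add (x i + y i)).div_const 2
    rw [add_zero] at h
    refine h.congr fun m => ?_
    have := h1 m i
    linarith
  have hlim : Tendsto (fun m => f (x' m) + f (y' m)) atTop
      (𝓝 (f (fun i => (x i + y i) / 2) + f (fun i => (x i + y i) / 2))) :=
    ((hc.tendsto _).comp hx).add ((hc.tendsto _).comp hy)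
  have := ge_of_tendsto' hlim h2
  linarith

/-- A continuous midpoint concave function on `[0,1]` vanishing at the end points is
nonnegative. -/
lemma nonneg_of_midpoint (h : ℝ → ℝ) (hc : Continuous h) (h0 : h 0 = 0) (h1 : h 1 = 0)
    (hm : ∀ a b, h a + h b ≤ 2 * h ((a + b) / 2)) : ∀ t ∈ Icc (0 : ℝ) 1, 0 ≤ h t := by
  by_contra hcon
  push Not at hcon
  obtain ⟨t0, ht0, hneg⟩ := hcon
  obtain ⟨z, hz, hzmin⟩ := isCompact_Icc.exists_isMinOn (nonempty_Icc.mpr zero_le_one)
    hc.continuousOn (s := Icc (0 : ℝ) 1)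
  have hzneg : h z < 0 := lt_of_le_of_lt (hzmin ht0) hneg
  -- the set of minimisers is closed; take its infimum
  set S := Icc (0 : ℝ) 1 ∩ {t | h t ≤ h z} with hS
  have hScomp : IsCompact S := isCompact_Icc.inter_right (isClosed_le hc continuous_const)
  have hSne : S.Nonempty := ⟨z, hz, le_refl (h z)⟩
  obtain ⟨w, hw⟩ := hScomp.exists_isLeast hSne
  have hw1 := hw.1.1
  have hwz : h w = h z := le_antisymm hw.1.2 (hzmin hw1)
  have hw0 : 0 < w := by
    rcases hw1.1.eq_or_lt with h' | h'
    · rw [← h', h0] at hwz; linarith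
    · exact h'
  have hwl : w < 1 := by
    rcases hw1.2.eq_or_lt with h' | h'
    · rw [h', h1] at hwz; linarith
    · exact h'
  set ε := min w (1 - w) with hε
  have hε0 : 0 < ε := lt_min hw0 (by linarith)
  have hεw : ε ≤ w := min_le_left _ _
  have hεw1 : ε ≤ 1 - w := min_le_right _ _
  have ha : w - ε ∈ Icc (0 : ℝ) 1 := ⟨by linarith, by linarith⟩
  have hb : w + ε ∈ Icc (0 : ℝ) 1 := ⟨by linarith, by linarith⟩
  have h3 := hm (w - ε) (w + ε)
  rw [show (w - ε + (w + ε)) / 2 = w by ring] at h3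
  have h4 : h z ≤ h (w + ε) := hzmin hb
  have h5 : h z < h (w - ε) := by
    by_contra hle
    push Not at hle
    have := hw.2 ⟨ha, hle⟩
    linarith
  linarith

theorem concave_of_super (f : (Fin n → ℝ) → ℝ) (r : ℝ) (hmono : Monotone f)
    (hsup : ∀ x y, f x + f y ≤ f (x ⊓ y) + f (x ⊔ y))
    (htr : ∀ x s, f (fun i => x i + s) = f x + r * s) : ConcaveOn ℝ univ f := by
  have hc := continuous_of_mono_tr f r hmono htr
  refine ⟨convex_univ, fun x _ y _ a b ha hb hab => ?_⟩
  set h : ℝ → ℝ := fun t => f (fun i => (1 - t) * x i + t * y i) - ((1 - t) * f x + t * f y) with hh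
  have hcont : Continuous h := by
    rw [hh]
    apply Continuous.sub
    · apply hc.comp
      fun_prop
    · fun_prop
  have h0 : h 0 = 0 := by rw [hh]; simp
  have h1 : h 1 = 0 := by rw [hh]; simp
  have hm : ∀ s t, h s + h t ≤ 2 * h ((s + t) / 2) := by
    intro s t
    have := midpoint_le f r hsup htr hc (fun i => (1 - s) * x i + s * y i)
      (fun i => (1 - t) * x i + t * y i)
    have e : (fun i => ((1 - s) * x i + s * y i + ((1 - t) * x i + t * y i)) / 2)
        = fun i => (1 - (s + t) / 2) * x i + (s + t) / 2 * y i := by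
      funext i; ring
    rw [e] at this
    rw [hh]
    simp only
    linarith
  have hb1 : b ≤ 1 := by linarith
  have key := nonneg_of_midpoint h hcont h0 h1 hm b ⟨hb, hb1⟩
  rw [hh] at key
  simp only at key
  have ea : a = 1 - b := by linarith
  rw [ea]
  simp only [smul_eq_mul]
  have e2 : ((1 - b) • x + b • y) = fun i => (1 - b) * x i + b * y i := by
    funext i; simp
  rw [e2]
  linarith

end

end Pool.Agent.W5h70.LP
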