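import Mathlib

open MeasureTheory Real
open scoped RealInnerProductSpace

namespace Pool.Agent.W5h70.LP

/-- Euclidean space of dimension `k`. -/
abbrev EV (k : ℕ) := EuclideanSpace ℝ (Fin k)

/-- The Gaussian integral in dimension `k`. -/
noncomputable def gC (k : ℕ) : ℝ := ∫ y : EV k, rexp (-‖y‖ ^ 2)

lemma integrable_gauss (k : ℕ) : Integrable (fun y : EV k => rexp (-‖y‖ ^ 2)) := by
  have h := (GaussianFourier.integrable_cexp_neg_mul_sq_norm_add (V := EV k) (b := 1)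
    (by simp) 0 0).re
  refine h.congr (Filter.Eventually.of_forall fun y => ?_)
  have : (-(1 : ℂ) * (‖y‖ : ℂ) ^ 2 + 0 * ((⟪(0 : EV k), y⟫ : ℝ) : ℂ)) = ((-‖y‖ ^ 2 : ℝ) : ℂ) := by
    push_cast; ring
  simp only [this]
  rw [← Complex.ofReal_exp]
  rfl

lemma integral_gauss_cos (k : ℕ) (w : EV k) :
    ∫ y : EV k, rexp (-‖y‖ ^ 2) * cos (2 * ⟪w, y⟫) = gC k * rexp (-‖w‖ ^ 2) := by
  have key : ∀ w : EV k, ∫ y : EV k, rexp (-‖y‖ ^ 2) * cos (2 * ⟪w, y⟫)
      = ((Real.pi / 1 : ℂ) ^ (Module.finrank ℝ (EV k) / 2 : ℂ)).re * rexp (-‖w‖ ^ 2) := by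
    intro w
    have h1 := GaussianFourier.integrable_cexp_neg_mul_sq_norm_add (V := EV k) (b := 1)
      (by simp) (2 * Complex.I) w
    have h2 := GaussianFourier.integral_cexp_neg_mul_sq_norm_add (V := EV k) (b := 1)
      (by simp) (2 * Complex.I) w
    have h3 := integral_re h1
    have h4 : ∀ y : EV k, RCLike.re (Complex.exp (-(1 : ℂ) * (‖y‖ : ℂ) ^ 2
        + 2 * Complex.I * ((⟪w, y⟫ : ℝ) : ℂ))) = rexp (-‖y‖ ^ 2) * cos (2 * ⟪w, y⟫) := by
      intro y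
      have : (-(1 : ℂ) * (‖y‖ : ℂ) ^ 2 + 2 * Complex.I * ((⟪w, y⟫ : ℝ) : ℂ))
          = ((-‖y‖ ^ 2 : ℝ) : ℂ) + ((2 * ⟪w, y⟫ : ℝ) : ℂ) * Complex.I := by
        push_cast; ring
      rw [this]
      show (Complex.exp _).re = _
      rw [Complex.exp_re, Complex.add_re, Complex.add_im, Complex.ofReal_re, Complex.ofReal_im,
        Complex.re_ofReal_mul, Complex.im_ofReal_mul, Complex.I_re, Complex.I_im, mul_zero,
        add_zero, zero_add, mul_one]
    simp only [h4] at h3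
    rw [h3, h2]
    have h5 : Complex.exp ((2 * Complex.I) ^ 2 * (‖w‖ : ℂ) ^ 2 / (4 * 1))
        = ((rexp (-‖w‖ ^ 2) : ℝ) : ℂ) := by
      rw [Complex.ofReal_exp]
      congr 1
      push_cast
      rw [mul_pow, Complex.I_sq]
      ring
    rw [h5]
    show (_ * ((rexp (-‖w‖ ^ 2) : ℝ) : ℂ)).re = _
    rw [Complex.mul_re, Complex.ofReal_re, Complex.ofReal_im]
    ring
  have h0 := key 0
  simp only [inner_zero_left, mul_zero, cos_zero, mul_one, norm_zero] at h0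
  have h0' : gC k = ((Real.pi / 1 : ℂ) ^ (Module.finrank ℝ (EV k) / 2 : ℂ)).re := by
    unfold gC
    rw [h0]; simp
  rw [key w, ← h0']

lemma gC_pos (k : ℕ) : 0 < gC k := by
  unfold gC
  apply integral_exp_pos
  exact integrable_gauss k

/-- Bounded continuous multiple of an integrable function. -/
lemma integrable_mul_of_abs_le_one {X : Type*} [TopologicalSpace X] [MeasurableSpace X]
    [OpensMeasurableSpace X] {μ : Measure X} {f g : X → ℝ}
    (hf : Integrable f μ) (hg : AEStronglyMeasurable g μ) (hb : ∀ x, |g x| ≤ 1) :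
    Integrable (fun x => f x * g x) μ := by
  refine hf.mono (hf.aestronglyMeasurable.mul hg) (Filter.Eventually.of_forall fun x => ?_)
  simp only [norm_mul, Real.norm_eq_abs]
  calc |f x| * |g x| ≤ |f x| * 1 := mul_le_mul_of_nonneg_left (hb x) (abs_nonneg _)
    _ = |f x| := mul_one _

/-- Gaussian integral of a quadratic perturbation. -/
noncomputable def gI {k n : ℕ} (S : EV k →L[ℝ] EV n) : ℝ :=
  ∫ y : EV k, rexp (-‖y‖ ^ 2) * rexp (-‖S y‖ ^ 2)

lemma abs_exp_neg_le_one {x : ℝ} (hx : 0 ≤ x) : |rexp (-x)| ≤ 1 := by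
  rw [abs_of_pos (exp_pos _)]
  exact Real.exp_le_one_iff.mpr (by linarith)

lemma integrable_gI {k n : ℕ} (S : EV k →L[ℝ] EV n) :
    Integrable (fun y : EV k => rexp (-‖y‖ ^ 2) * rexp (-‖S y‖ ^ 2)) := by
  apply integrable_mul_of_abs_le_one (integrable_gauss k)
  · exact (by fun_prop : Continuous fun y : EV k => rexp (-‖S y‖ ^ 2)).aestronglyMeasurable
  · intro y
    have := abs_exp_neg_le_one (sq_nonneg ‖S y‖)
    simp

lemma gI_pos {k n : ℕ} (S : EV k →L[ℝ] EV n) : 0 < gI S := by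
  have h : (fun y : EV k => rexp (-‖y‖ ^ 2) * rexp (-‖S y‖ ^ 2))
      = fun y => rexp (-‖y‖ ^ 2 + -‖S y‖ ^ 2) := by
    funext y; rw [Real.exp_add]
  unfold gI
  have h2 := integrable_gI S
  rw [h] at h2
  rw [h]
  exact integral_exp_pos h2

lemma gI_adjoint {k n : ℕ} (S : EV k →L[ℝ] EV n) :
    gI S * gC n = gC k * gI (ContinuousLinearMap.adjoint S) := by
  have h1 : gI S * gC n = ∫ y : EV k, ∫ ξ : EV n,
      rexp (-‖y‖ ^ 2) * rexp (-‖ξ‖ ^ 2) * cos (2 * ⟪S y, ξ⟫) := by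
    unfold gI
    rw [← integral_mul_const]
    congr 1
    funext y
    simp only [mul_assoc]
    rw [integral_const_mul, integral_gauss_cos n (S y)]
    ring
  have hint : Integrable (Function.uncurry fun (y : EV k) (ξ : EV n) =>
      rexp (-‖y‖ ^ 2) * rexp (-‖ξ‖ ^ 2) * cos (2 * ⟪S y, ξ⟫)) (volume.prod volume) := by
    have h0 := (integrable_gauss k).mul_prod (integrable_gauss n)
    refine integrable_mul_of_abs_le_one h0 ?_ ?_
    · exact (by fun_prop : Continuous fun z : EV k × EV n =>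
        cos (2 * ⟪S z.1, z.2⟫)).aestronglyMeasurable
    · intro z; exact abs_cos_le_one _
  rw [h1, integral_integral_swap hint]
  unfold gI
  rw [← integral_const_mul]
  congr 1
  funext ξ
  have h2 : ∀ y : EV k, rexp (-‖y‖ ^ 2) * rexp (-‖ξ‖ ^ 2) * cos (2 * ⟪S y, ξ⟫)
      = rexp (-‖ξ‖ ^ 2) * (rexp (-‖y‖ ^ 2) *
        cos (2 * ⟪ContinuousLinearMap.adjoint S ξ, y⟫)) := by
    intro y
    rw [ContinuousLinearMap.adjoint_inner_left, real_inner_comm ξ]
    ring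
  simp only [h2]
  rw [integral_const_mul, integral_gauss_cos k]
  ring

lemma cosh_bound {k : ℕ} (p q : EV k) :
    gC k * (rexp (-‖p‖ ^ 2) * rexp (-‖q‖ ^ 2)) ≤
      ∫ y : EV k, rexp (-‖y‖ ^ 2) * (cos (2 * ⟪p, y⟫) * cos (2 * ⟪q, y⟫)) := by
  have h1 : ∀ y : EV k, rexp (-‖y‖ ^ 2) * (cos (2 * ⟪p, y⟫) * cos (2 * ⟪q, y⟫))
      = (1 / 2) * (rexp (-‖y‖ ^ 2) * cos (2 * ⟪p + q, y⟫)
        + rexp (-‖y‖ ^ 2) * cos (2 * ⟪p - q, y⟫)) := by
    intro y
    rw [inner_add_left, inner_sub_left, mul_add (2 : ℝ), mul_sub (2 : ℝ), cos_add, cos_sub]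
    ring
  have hi : ∀ w : EV k, Integrable (fun y : EV k => rexp (-‖y‖ ^ 2) * cos (2 * ⟪w, y⟫)) := by
    intro w
    refine integrable_mul_of_abs_le_one (integrable_gauss k) ?_ fun y => abs_cos_le_one _
    exact (by fun_prop : Continuous fun y : EV k => cos (2 * ⟪w, y⟫)).aestronglyMeasurable
  simp only [h1]
  rw [integral_const_mul, integral_add (hi _) (hi _), integral_gauss_cos, integral_gauss_cos]
  have hC := gC_pos k
  have h2 : rexp (-‖p‖ ^ 2) * rexp (-‖q‖ ^ 2) ≤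
      (1 / 2) * (rexp (-‖p + q‖ ^ 2) + rexp (-‖p - q‖ ^ 2)) := by
    have hpar : ‖p + q‖ ^ 2 + ‖p - q‖ ^ 2 = 2 * (‖p‖ ^ 2 + ‖q‖ ^ 2) := by
      have := parallelogram_law_with_norm ℝ p q
      nlinarith [this]
    set a := rexp (-‖p + q‖ ^ 2 / 2)
    set b := rexp (-‖p - q‖ ^ 2 / 2)
    have ha : rexp (-‖p + q‖ ^ 2) = a ^ 2 := by
      rw [← Real.exp_nat_mul]; congr 1; push_cast; ring
    have hb : rexp (-‖p - q‖ ^ 2) = b ^ 2 := by
      rw [← Real.exp_nat_mul]; congr 1; push_cast; ring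
    have hab : rexp (-‖p‖ ^ 2) * rexp (-‖q‖ ^ 2) = a * b := by
      rw [← Real.exp_add, ← Real.exp_add]; congr 1; linarith
    rw [ha, hb, hab]
    nlinarith [sq_nonneg (a - b)]
  nlinarith [h2, hC]

/-- Positive correlation of even quadratic exponentials under the standard Gaussian. -/
lemma gI_mul_le {k n : ℕ} (S₁ S₂ : EV k →L[ℝ] EV n) :
    gI S₁ * gI S₂ ≤ gC k *
      ∫ y : EV k, rexp (-‖y‖ ^ 2) * (rexp (-‖S₁ y‖ ^ 2) * rexp (-‖S₂ y‖ ^ 2)) := by
  set X := ∫ y : EV k, rexp (-‖y‖ ^ 2) * (rexp (-‖S₁ y‖ ^ 2) * rexp (-‖S₂ y‖ ^ 2)) with hX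
  have h1 : X * (gC n * gC n) = ∫ y : EV k, ∫ z : EV n × EV n,
      rexp (-‖y‖ ^ 2) * (rexp (-‖z.1‖ ^ 2) * rexp (-‖z.2‖ ^ 2)) *
        (cos (2 * ⟪S₁ y, z.1⟫) * cos (2 * ⟪S₂ y, z.2⟫)) := by
    rw [hX, ← integral_mul_const]
    congr 1
    funext y
    have h2 : ∀ z : EV n × EV n, rexp (-‖y‖ ^ 2) * (rexp (-‖z.1‖ ^ 2) * rexp (-‖z.2‖ ^ 2)) *
        (cos (2 * ⟪S₁ y, z.1⟫) * cos (2 * ⟪S₂ y, z.2⟫))
        = rexp (-‖y‖ ^ 2) * ((rexp (-‖z.1‖ ^ 2) * cos (2 * ⟪S₁ y, z.1⟫)) *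
          (rexp (-‖z.2‖ ^ 2) * cos (2 * ⟪S₂ y, z.2⟫))) := by
      intro z; ring
    simp only [h2]
    rw [integral_const_mul]
    have h3 := integral_prod_mul (μ := (volume : Measure (EV n))) (ν := (volume : Measure (EV n)))
      (fun ξ : EV n => rexp (-‖ξ‖ ^ 2) * cos (2 * ⟪S₁ y, ξ⟫))
      (fun η : EV n => rexp (-‖η‖ ^ 2) * cos (2 * ⟪S₂ y, η⟫))
    rw [integral_gauss_cos, integral_gauss_cos] at h3
    have h4 : (volume : Measure (EV n × EV n)) = (volume : Measure (EV n)).prod volume := rfl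
    rw [h4, h3]
    ring
  have hint : Integrable (Function.uncurry fun (y : EV k) (z : EV n × EV n) =>
      rexp (-‖y‖ ^ 2) * (rexp (-‖z.1‖ ^ 2) * rexp (-‖z.2‖ ^ 2)) *
        (cos (2 * ⟪S₁ y, z.1⟫) * cos (2 * ⟪S₂ y, z.2⟫))) (volume.prod volume) := by
    have h0 := (integrable_gauss k).mul_prod ((integrable_gauss n).mul_prod (integrable_gauss n))
    refine integrable_mul_of_abs_le_one h0 ?_ ?_
    · exact (by fun_prop : Continuous fun w : EV k × (EV n × EV n) =>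
        cos (2 * ⟪S₁ w.1, w.2.1⟫) * cos (2 * ⟪S₂ w.1, w.2.2⟫)).aestronglyMeasurable
    · intro w
      rw [abs_mul]
      exact mul_le_one₀ (abs_cos_le_one _) (abs_nonneg _) (abs_cos_le_one _)
  have hswap := integral_integral_swap hint
  have h5 : gC k * (gI (ContinuousLinearMap.adjoint S₁) * gI (ContinuousLinearMap.adjoint S₂))
      ≤ X * (gC n * gC n) := by
    rw [h1, hswap]
    unfold gI
    have h6 := integral_prod_mul (μ := (volume : Measure (EV n))) (ν := (volume : Measure (EV n)))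
      (fun ξ : EV n => rexp (-‖ξ‖ ^ 2) * rexp (-‖ContinuousLinearMap.adjoint S₁ ξ‖ ^ 2))
      (fun η : EV n => rexp (-‖η‖ ^ 2) * rexp (-‖ContinuousLinearMap.adjoint S₂ η‖ ^ 2))
    rw [← h6, ← integral_const_mul]
    apply integral_mono
    · exact ((integrable_gI (ContinuousLinearMap.adjoint S₁)).mul_prod
        (integrable_gI (ContinuousLinearMap.adjoint S₂))).const_mul _
    · exact hint.integral_prod_right
    · intro z
      have h7 := cosh_bound (ContinuousLinearMap.adjoint S₁ z.1) (ContinuousLinearMap.adjoint S₂ z.2)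
      have h8 : ∀ y : EV k, rexp (-‖y‖ ^ 2) * (rexp (-‖z.1‖ ^ 2) * rexp (-‖z.2‖ ^ 2)) *
        (cos (2 * ⟪S₁ y, z.1⟫) * cos (2 * ⟪S₂ y, z.2⟫))
        = (rexp (-‖z.1‖ ^ 2) * rexp (-‖z.2‖ ^ 2)) * (rexp (-‖y‖ ^ 2) *
          (cos (2 * ⟪ContinuousLinearMap.adjoint S₁ z.1, y⟫) *
            cos (2 * ⟪ContinuousLinearMap.adjoint S₂ z.2, y⟫))) := by
        intro y
        rw [ContinuousLinearMap.adjoint_inner_left, ContinuousLinearMap.adjoint_inner_left,
          real_inner_comm z.1, real_inner_comm z.2]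
        ring
      simp only [h8]
      rw [integral_const_mul]
      have h9 : 0 ≤ rexp (-‖z.1‖ ^ 2) * rexp (-‖z.2‖ ^ 2) := by positivity
      have h10 := mul_le_mul_of_nonneg_left h7 h9
      refine le_trans (le_of_eq ?_) h10
      ring
  have e1 := gI_adjoint S₁
  have e2 := gI_adjoint S₂
  have hk := gC_pos k
  have hn := gC_pos n
  have h11 : (gI S₁ * gI S₂) * (gC n * gC n) ≤ (gC k * X) * (gC n * gC n) := by
    calc (gI S₁ * gI S₂) * (gC n * gC n) = (gI S₁ * gC n) * (gI S₂ * gC n) := by ring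
      _ = gC k * (gC k * (gI (ContinuousLinearMap.adjoint S₁) *
            gI (ContinuousLinearMap.adjoint S₂))) := by rw [e1, e2]; ring
      _ ≤ gC k * (X * (gC n * gC n)) := mul_le_mul_of_nonneg_left h5 hk.le
      _ = _ := by ring
  exact le_of_mul_le_mul_right h11 (by positivity)

end Pool.Agent.W5h70.LP
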