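import Mathlib

open MeasureTheory Real Filter Topology Set

namespace Pool.Agent.W5h70.LP

/-- The integrand of the one-sided stable Levy representation of `lam ^ α`. -/
noncomputable def ph (α lam s : ℝ) : ℝ :=
  if 0 < s then (1 - rexp (-(s * lam))) * s ^ (-1 - α) else 0

lemma ph_of_pos {α lam s : ℝ} (hs : 0 < s) : ph α lam s = (1 - rexp (-(s * lam))) * s ^ (-1 - α) := by
  unfold ph; rw [if_pos hs]

lemma one_sub_exp_nonneg {x : ℝ} (hx : 0 ≤ x) : 0 ≤ 1 - rexp (-x) := by
  have : rexp (-x) ≤ 1 := Real.exp_le_one_iff.mpr (by linarith)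
  linarith

lemma one_sub_exp_le {x : ℝ} : 1 - rexp (-x) ≤ x := by
  have := Real.add_one_le_exp (-x)
  linarith

lemma ph_nonneg {α lam : ℝ} (hl : 0 ≤ lam) (s : ℝ) : 0 ≤ ph α lam s := by
  unfold ph
  split_ifs with h
  · exact mul_nonneg (one_sub_exp_nonneg (by positivity)) (by positivity)
  · exact le_rfl

lemma ph_anti {α lam : ℝ} (hα : 0 < α) (hl : 0 ≤ lam) {s t : ℝ} (hs : 0 < s) (hst : s ≤ t) :
    ph α lam t ≤ ph α lam s := by
  have ht : 0 < t := lt_of_lt_of_le hs hst
  rw [ph_of_pos hs, ph_of_pos ht]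
  have hr0 : 0 ≤ s / t := by positivity
  have hr1 : s / t ≤ 1 := (div_le_one ht).mpr hst
  have hconv := convexOn_exp.2 (Set.mem_univ (-(t * lam))) (Set.mem_univ (0 : ℝ)) hr0
    (by linarith : (0 : ℝ) ≤ 1 - s / t) (by ring)
  simp only [smul_eq_mul, mul_zero, add_zero, Real.exp_zero, mul_one] at hconv
  have h1 : s / t * -(t * lam) = -(s * lam) := by field_simp
  rw [h1] at hconv
  have h2 : (s / t) * (1 - rexp (-(t * lam))) ≤ 1 - rexp (-(s * lam)) := by linarith
  have h3 : t ^ (-1 - α) = t ^ (-α) / t := by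
    rw [show (-1 - α) = -α - 1 by ring, Real.rpow_sub_one ht.ne']
  have h4 : s ^ (-1 - α) = s ^ (-α) / s := by
    rw [show (-1 - α) = -α - 1 by ring, Real.rpow_sub_one hs.ne']
  have h5 : t ^ (-α) ≤ s ^ (-α) := Real.rpow_le_rpow_of_nonpos hs hst (by linarith)
  have h6 : 0 ≤ 1 - rexp (-(t * lam)) := one_sub_exp_nonneg (by positivity)
  rw [h3, h4]
  calc (1 - rexp (-(t * lam))) * (t ^ (-α) / t)
      ≤ (1 - rexp (-(t * lam))) * (s ^ (-α) / t) := by gcongr
    _ = ((s / t) * (1 - rexp (-(t * lam)))) * (s ^ (-α) / s) := by field_simp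
    _ ≤ (1 - rexp (-(s * lam))) * (s ^ (-α) / s) := by gcongr

lemma ph_meas (α lam : ℝ) : Measurable (ph α lam) := by
  unfold ph
  refine Measurable.ite measurableSet_Ioi ?_ measurable_const
  fun_prop

lemma ph_integrable {α lam : ℝ} (hα : 0 < α) (hα1 : α < 1) (hl : 0 ≤ lam) :
    Integrable (ph α lam) := by
  have h1 : IntegrableOn (fun s : ℝ => lam * s ^ (-α)) (Ioc 0 1) := by
    have := (intervalIntegral.intervalIntegrable_rpow' (a := 0) (b := 1) (r := -α) (by linarith))
    rw [intervalIntegrable_iff_integrableOn_Ioc_of_le zero_le_one] at this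
    exact this.const_mul _
  have h2 : IntegrableOn (fun s : ℝ => s ^ (-1 - α)) (Ioi 1) :=
    integrableOn_Ioi_rpow_of_lt (by linarith) zero_lt_one
  have h1' : Integrable ((Ioc (0 : ℝ) 1).indicator fun s : ℝ => lam * s ^ (-α)) :=
    (integrable_indicator_iff measurableSet_Ioc).mpr h1
  have h2' : Integrable ((Ioi (1 : ℝ)).indicator fun s : ℝ => s ^ (-1 - α)) :=
    (integrable_indicator_iff measurableSet_Ioi).mpr h2
  refine (h1'.add h2').mono' (ph_meas α lam).aestronglyMeasurable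
    (Eventually.of_forall fun s => ?_)
  rw [Real.norm_eq_abs, abs_of_nonneg (ph_nonneg hl s)]
  simp only [Pi.add_apply]
  rcases le_or_gt s 0 with hs | hs
  · have : ph α lam s = 0 := by unfold ph; rw [if_neg (not_lt.mpr hs)]
    rw [this]
    apply add_nonneg
    · apply Set.indicator_nonneg; intro x hx; have := hx.1; positivity
    · apply Set.indicator_nonneg
      intro x hx
      have : (0 : ℝ) < x := lt_trans zero_lt_one hx
      positivity
  · rcases le_or_gt s 1 with h1s | h1s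
    · rw [Set.indicator_of_mem (show s ∈ Ioc (0 : ℝ) 1 from ⟨hs, h1s⟩),
        Set.indicator_of_notMem (show s ∉ Ioi (1 : ℝ) from not_lt.mpr h1s), add_zero, ph_of_pos hs]
      calc (1 - rexp (-(s * lam))) * s ^ (-1 - α) ≤ (s * lam) * s ^ (-1 - α) := by
            gcongr; exact one_sub_exp_le
        _ = lam * s ^ (-α) := by
            rw [show (-1 - α) = -α - 1 by ring, Real.rpow_sub_one hs.ne']; field_simp
    · rw [Set.indicator_of_notMem (show s ∉ Ioc (0 : ℝ) 1 from fun h => not_lt.mpr h.2 h1s),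
        Set.indicator_of_mem (show s ∈ Ioi (1 : ℝ) from h1s), zero_add, ph_of_pos hs]
      have : 1 - rexp (-(s * lam)) ≤ 1 := by have := Real.exp_pos (-(s * lam)); linarith
      calc (1 - rexp (-(s * lam))) * s ^ (-1 - α) ≤ 1 * s ^ (-1 - α) := by gcongr
        _ = s ^ (-1 - α) := one_mul _

/-- The normalising constant. -/
noncomputable def KK (α : ℝ) : ℝ := ∫ s, ph α 1 s

lemma KK_pos {α : ℝ} (hα : 0 < α) (hα1 : α < 1) : 0 < KK α := by
  unfold KK
  rw [integral_pos_iff_support_of_nonneg (fun s => ph_nonneg zero_le_one s)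
    (ph_integrable hα hα1 zero_le_one)]
  have hsub : Ioo (0 : ℝ) 1 ⊆ Function.support (ph α 1) := by
    intro s hs
    rw [Function.mem_support, ph_of_pos hs.1]
    have h1 : 0 < 1 - rexp (-(s * 1)) := by
      have : rexp (-(s * 1)) < 1 := by
        rw [Real.exp_lt_one_iff]; linarith [hs.1]
      linarith
    have h2 : 0 < s ^ (-1 - α) := Real.rpow_pos_of_pos hs.1 _
    positivity
  refine lt_of_lt_of_le ?_ (measure_mono hsub)
  simp

lemma integral_ph {α lam : ℝ} (hα : 0 < α) (hl : 0 ≤ lam) :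
    ∫ s, ph α lam s = lam ^ α * KK α := by
  rcases hl.eq_or_lt with h0 | h0
  · subst h0
    have : ph α 0 = fun _ => 0 := by
      funext s; unfold ph; split_ifs <;> simp
    rw [this, Real.zero_rpow hα.ne']
    simp
  · have h1 : ∀ s, ph α lam s = lam ^ (1 + α) * ph α 1 (lam * s) := by
      intro s
      rcases le_or_gt s 0 with hs | hs
      · have h2 : ¬ 0 < s := not_lt.mpr hs
        have h3 : ¬ 0 < lam * s := not_lt.mpr (mul_nonpos_of_nonneg_of_nonpos hl hs)
        unfold ph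
        rw [if_neg h2, if_neg h3, mul_zero]
      · rw [ph_of_pos hs, ph_of_pos (mul_pos h0 hs), Real.mul_rpow h0.le hs.le,
          mul_one, mul_comm s lam]
        have h4 : lam ^ (1 + α) * lam ^ (-1 - α) = 1 := by
          rw [← Real.rpow_add h0]; simp
        calc (1 - rexp (-(lam * s))) * s ^ (-1 - α)
            = (lam ^ (1 + α) * lam ^ (-1 - α)) * ((1 - rexp (-(lam * s))) * s ^ (-1 - α)) := by
              rw [h4, one_mul]
          _ = _ := by ring
    simp only [h1]
    rw [integral_const_mul, Measure.integral_comp_mul_left (fun s => ph α 1 s) lam]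
    unfold KK
    rw [smul_eq_mul, ← mul_assoc, abs_of_pos (inv_pos.mpr h0), Real.rpow_add h0, Real.rpow_one]
    congr 1
    field_simp

/-- Riemann sums. -/
noncomputable def KN (α lam : ℝ) (N : ℕ) : ℝ :=
  ∑ j ∈ Finset.range ((N + 1) * (N + 1)), (1 / ((N : ℝ) + 1)) * ph α lam (((j : ℝ) + 1) / ((N : ℝ) + 1))

lemma KN_tendsto {α lam : ℝ} (hα : 0 < α) (hα1 : α < 1) (hl : 0 ≤ lam) :
    Tendsto (KN α lam) atTop (𝓝 (lam ^ α * KK α)) := by
  have hint := ph_integrable hα hα1 hl
  have hii : ∀ a b : ℝ, IntervalIntegrable (ph α lam) volume a b :=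
    fun a b => hint.intervalIntegrable
  have htot : ∫ s in Ioi (0 : ℝ), ph α lam s = lam ^ α * KK α := by
    rw [← integral_ph hα hl]
    apply setIntegral_eq_integral_of_forall_compl_eq_zero
    intro s hs
    unfold ph
    rw [if_neg (show ¬ 0 < s from hs)]
  have hup : ∀ N : ℕ, KN α lam N ≤ ∫ s in (0 : ℝ)..((N : ℝ) + 1), ph α lam s := by
    intro N
    have hN : (0 : ℝ) < (N : ℝ) + 1 := by positivity
    have hsum := intervalIntegral.sum_integral_adjacent_intervals (μ := volume)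
      (f := ph α lam) (a := fun j : ℕ => (j : ℝ) / ((N : ℝ) + 1)) (n := (N + 1) * (N + 1))
      (fun k _ => hii _ _)
    have e0 : ((0 : ℕ) : ℝ) / ((N : ℝ) + 1) = 0 := by simp
    have e1 : (((N + 1) * (N + 1) : ℕ) : ℝ) / ((N : ℝ) + 1) = (N : ℝ) + 1 := by
      push_cast; field_simp
    simp only [e0, e1] at hsum
    rw [← hsum]
    unfold KN
    apply Finset.sum_le_sum
    intro j _
    have hlt : (j : ℝ) / ((N : ℝ) + 1) ≤ ((j + 1 : ℕ) : ℝ) / ((N : ℝ) + 1) := by
      push_cast; gcongr; linarith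
    have hc : ∫ _s in ((j : ℝ) / ((N : ℝ) + 1))..(((j + 1 : ℕ) : ℝ) / ((N : ℝ) + 1)),
        ph α lam (((j : ℝ) + 1) / ((N : ℝ) + 1))
        = (1 / ((N : ℝ) + 1)) * ph α lam (((j : ℝ) + 1) / ((N : ℝ) + 1)) := by
      rw [intervalIntegral.integral_const, smul_eq_mul]
      congr 1
      push_cast; field_simp; ring
    rw [← hc]
    apply intervalIntegral.integral_mono_on_of_le_Ioo hlt
      intervalIntegrable_const (hii _ _)
    intro s hs
    have hs0 : 0 < s := lt_of_le_of_lt (by positivity) hs.1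
    apply ph_anti hα hl hs0
    have := hs.2.le
    push_cast at this
    exact this
  have hlo : ∀ N : ℕ, ∫ s in (1 / ((N : ℝ) + 1))..((N : ℝ) + 1 + 1 / ((N : ℝ) + 1)), ph α lam s
      ≤ KN α lam N := by
    intro N
    have hN : (0 : ℝ) < (N : ℝ) + 1 := by positivity
    have hsum := intervalIntegral.sum_integral_adjacent_intervals (μ := volume)
      (f := ph α lam) (a := fun j : ℕ => ((j : ℝ) + 1) / ((N : ℝ) + 1)) (n := (N + 1) * (N + 1))
      (fun k _ => hii _ _)
    have e0 : (((0 : ℕ) : ℝ) + 1) / ((N : ℝ) + 1) = 1 / ((N : ℝ) + 1) := by simp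
    have e1 : ((((N + 1) * (N + 1) : ℕ) : ℝ) + 1) / ((N : ℝ) + 1)
        = (N : ℝ) + 1 + 1 / ((N : ℝ) + 1) := by
      push_cast; field_simp
    simp only [e0, e1] at hsum
    rw [← hsum]
    unfold KN
    apply Finset.sum_le_sum
    intro j _
    have hlt : ((j : ℝ) + 1) / ((N : ℝ) + 1) ≤ (((j + 1 : ℕ) : ℝ) + 1) / ((N : ℝ) + 1) := by
      push_cast; gcongr; linarith
    have hc : ∫ _s in (((j : ℝ) + 1) / ((N : ℝ) + 1))..((((j + 1 : ℕ) : ℝ) + 1) / ((N : ℝ) + 1)),
        ph α lam (((j : ℝ) + 1) / ((N : ℝ) + 1))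
        = (1 / ((N : ℝ) + 1)) * ph α lam (((j : ℝ) + 1) / ((N : ℝ) + 1)) := by
      rw [intervalIntegral.integral_const, smul_eq_mul]
      congr 1
      push_cast; field_simp; ring
    rw [← hc]
    apply intervalIntegral.integral_mono_on_of_le_Ioo hlt (hii _ _)
      intervalIntegrable_const
    intro s hs
    apply ph_anti hα hl (by positivity) hs.1.le
  have hNt : Tendsto (fun N : ℕ => (N : ℝ) + 1) atTop atTop :=
    tendsto_atTop_add_const_right _ _ tendsto_natCast_atTop_atTop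
  have hinv : Tendsto (fun N : ℕ => 1 / ((N : ℝ) + 1)) atTop (𝓝 0) :=
    tendsto_one_div_add_atTop_nhds_zero_nat
  have hNt2 : Tendsto (fun N : ℕ => (N : ℝ) + 1 + 1 / ((N : ℝ) + 1)) atTop atTop := by
    apply tendsto_atTop_mono _ hNt
    intro N
    have : (0 : ℝ) ≤ 1 / ((N : ℝ) + 1) := by positivity
    linarith
  have hU : Tendsto (fun N : ℕ => ∫ s in (0 : ℝ)..((N : ℝ) + 1), ph α lam s) atTop
      (𝓝 (lam ^ α * KK α)) := by
    rw [← htot]
    exact intervalIntegral_tendsto_integral_Ioi 0 hint.integrableOn hNt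
  have hU2 : Tendsto (fun N : ℕ => ∫ s in (0 : ℝ)..((N : ℝ) + 1 + 1 / ((N : ℝ) + 1)), ph α lam s)
      atTop (𝓝 (lam ^ α * KK α)) := by
    rw [← htot]
    exact intervalIntegral_tendsto_integral_Ioi 0 hint.integrableOn hNt2
  have hsm : Tendsto (fun N : ℕ => ∫ s in (0 : ℝ)..(1 / ((N : ℝ) + 1)), ph α lam s) atTop
      (𝓝 0) := by
    have hcont := intervalIntegral.continuous_primitive hii 0
    have h := (hcont.tendsto 0).comp hinv
    rw [intervalIntegral.integral_same] at h
    exact h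
  have hL : Tendsto (fun N : ℕ => ∫ s in (1 / ((N : ℝ) + 1))..((N : ℝ) + 1 + 1 / ((N : ℝ) + 1)),
      ph α lam s) atTop (𝓝 (lam ^ α * KK α)) := by
    have := hU2.sub hsm
    rw [sub_zero] at this
    refine this.congr fun N => ?_
    exact intervalIntegral.integral_interval_sub_left (hii _ _) (hii _ _)
  exact tendsto_of_tendsto_of_tendsto_of_le_of_le hL hU hlo hup

end Pool.Agent.W5h70.LP
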