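import Pool.Agent.W5h70.LP.Super
import Pool.Agent.W5h70.LP.Concave

open MeasureTheory Real Filter Topology
open scoped RealInnerProductSpace

namespace Pool.Agent.W5h70.LP

section
variable {k n : ℕ}

/-- The `p`-energy integral. -/
noncomputable def Phi (p : ℝ) (e : EV k →ₗ[ℝ] EV n) (c : Fin n → ℝ) : ℝ :=
  ∫ y : EV k, rexp (-∑ l, c l * |(e y) l| ^ p)

/-- The associated norm. -/
noncomputable def gn (p : ℝ) (e : EV k →ₗ[ℝ] EV n) (c : Fin n → ℝ) (y : EV k) : ℝ :=
  (∑ l, c l * |(e y) l| ^ p) ^ (1 / p)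

lemma gn_pow {p : ℝ} (hp : 0 < p) (e : EV k →ₗ[ℝ] EV n) {c : Fin n → ℝ} (hc : ∀ l, 0 < c l)
    (y : EV k) : (gn p e c y) ^ p = ∑ l, c l * |(e y) l| ^ p := by
  unfold gn
  have h0 : 0 ≤ ∑ l, c l * |(e y) l| ^ p :=
    Finset.sum_nonneg fun l _ => mul_nonneg (hc l).le (by positivity)
  rw [← Real.rpow_mul h0, one_div, inv_mul_cancel₀ hp.ne', Real.rpow_one]

lemma gn_nonneg (p : ℝ) (e : EV k →ₗ[ℝ] EV n) {c : Fin n → ℝ} (hc : ∀ l, 0 < c l)
    (y : EV k) : 0 ≤ gn p e c y := by
  unfold gn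
  have h0 : 0 ≤ ∑ l, c l * |(e y) l| ^ p :=
    Finset.sum_nonneg fun l _ => mul_nonneg (hc l).le (by positivity)
  positivity

lemma gn_zero {p : ℝ} (hp : 0 < p) (e : EV k →ₗ[ℝ] EV n) (c : Fin n → ℝ) : gn p e c 0 = 0 := by
  unfold gn
  have : ∑ l, c l * |(e (0 : EV k)) l| ^ p = 0 := by
    apply Finset.sum_eq_zero
    intro l _
    rw [map_zero]
    simp [Real.zero_rpow hp.ne']
  rw [this, Real.zero_rpow (by positivity)]

lemma gn_neg (p : ℝ) (e : EV k →ₗ[ℝ] EV n) (c : Fin n → ℝ) (y : EV k) :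
    gn p e c (-y) = gn p e c y := by
  unfold gn
  simp

lemma gn_eq {p : ℝ} (hp : 0 < p) (e : EV k →ₗ[ℝ] EV n) {c : Fin n → ℝ} (hc : ∀ l, 0 < c l)
    (y : EV k) : gn p e c y = (∑ l, |c l ^ (1 / p) * (e y) l| ^ p) ^ (1 / p) := by
  unfold gn
  congr 1
  refine Finset.sum_congr rfl fun l _ => ?_
  have h1 : 0 ≤ c l ^ (1 / p) := Real.rpow_nonneg (hc l).le _
  rw [abs_mul, abs_of_nonneg h1, Real.mul_rpow h1 (abs_nonneg _), ← Real.rpow_mul (hc l).le,
    one_div, inv_mul_cancel₀ hp.ne', Real.rpow_one]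

lemma gn_add_le {p : ℝ} (hp : 1 ≤ p) (e : EV k →ₗ[ℝ] EV n) {c : Fin n → ℝ} (hc : ∀ l, 0 < c l)
    (y z : EV k) : gn p e c (y + z) ≤ gn p e c y + gn p e c z := by
  have hp0 : 0 < p := by linarith
  rw [gn_eq hp0 e hc, gn_eq hp0 e hc, gn_eq hp0 e hc]
  have := Real.Lp_add_le (Finset.univ) (fun l => c l ^ (1 / p) * (e y) l)
    (fun l => c l ^ (1 / p) * (e z) l) hp
  refine le_trans (le_of_eq ?_) this
  congr 1
  refine Finset.sum_congr rfl fun l _ => ?_
  rw [map_add, PiLp.add_apply, mul_add]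

lemma gn_smul {p : ℝ} (hp : 0 < p) (e : EV k →ₗ[ℝ] EV n) {c : Fin n → ℝ} (hc : ∀ l, 0 < c l)
    (r : ℝ) (y : EV k) : gn p e c (r • y) = |r| * gn p e c y := by
  unfold gn
  have h0 : 0 ≤ ∑ l, c l * |(e y) l| ^ p :=
    Finset.sum_nonneg fun l _ => mul_nonneg (hc l).le (by positivity)
  have h1 : ∑ l, c l * |(e (r • y)) l| ^ p = |r| ^ p * ∑ l, c l * |(e y) l| ^ p := by
    rw [Finset.mul_sum]
    refine Finset.sum_congr rfl fun l _ => ?_
    rw [map_smul, PiLp.smul_apply, smul_eq_mul, abs_mul, Real.mul_rpow (abs_nonneg _) (abs_nonneg _)]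
    ring
  rw [h1, Real.mul_rpow (by positivity) h0, ← Real.rpow_mul (abs_nonneg r), mul_one_div,
    div_self hp.ne', Real.rpow_one]

lemma gn_eq_zero {p : ℝ} (hp : 0 < p) (e : EV k →ₗ[ℝ] EV n) (he : Function.Injective e)
    {c : Fin n → ℝ} (hc : ∀ l, 0 < c l) {y : EV k} (h : gn p e c y = 0) : y = 0 := by
  have h1 := gn_pow hp e hc y
  rw [h, Real.zero_rpow hp.ne'] at h1
  have h2 := (Finset.sum_eq_zero_iff_of_nonneg
    (fun l _ => mul_nonneg (hc l).le (by positivity : 0 ≤ |(e y) l| ^ p))).mp h1.symm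
  apply he
  rw [map_zero]
  ext l
  have h3 := h2 l (Finset.mem_univ l)
  have h4 : |(e y) l| ^ p = 0 := by
    rcases mul_eq_zero.mp h3 with h | h
    · exact absurd h (hc l).ne'
    · exact h
  have h5 : |(e y) l| = 0 := by
    by_contra hne
    have hpos : 0 < |(e y) l| := lt_of_le_of_ne (abs_nonneg _) (Ne.symm hne)
    exact absurd h4 (Real.rpow_pos_of_pos hpos p).ne'
  simpa using h5

lemma vol_lt {p : ℝ} (hp : 1 ≤ p) (e : EV k →ₗ[ℝ] EV n) (he : Function.Injective e)
    {c : Fin n → ℝ} (hc : ∀ l, 0 < c l) :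
    volume {y : EV k | gn p e c y < 1} = .ofReal (Phi p e c / Real.Gamma (k / p + 1)) := by
  have hp0 : 0 < p := by linarith
  have := MeasureTheory.measure_lt_one_eq_integral_div_gamma (volume : Measure (EV k))
    (g := gn p e c) (gn_zero hp0 e c) (gn_neg p e c) (gn_add_le hp e hc)
    (fun {y} h => gn_eq_zero hp0 e he hc h) (fun r y => (gn_smul hp0 e hc r y).le) hp0
  rw [this]
  simp only [gn_pow hp0 e hc, finrank_euclideanSpace, Fintype.card_fin]
  rfl

lemma vol_le {p : ℝ} (hp : 1 ≤ p) (hk : 0 < k) (e : EV k →ₗ[ℝ] EV n) (he : Function.Injective e)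
    {c : Fin n → ℝ} (hc : ∀ l, 0 < c l) :
    volume {y : EV k | gn p e c y ≤ 1} = .ofReal (Phi p e c / Real.Gamma (k / p + 1)) := by
  have hp0 : 0 < p := by linarith
  have : Nonempty (Fin k) := ⟨⟨0, hk⟩⟩
  have : Nontrivial (EV k) := inferInstance
  rw [MeasureTheory.measure_le_eq_lt (volume : Measure (EV k))
    (g := gn p e c) (gn_zero hp0 e c) (gn_neg p e c) (gn_add_le hp e hc)
    (fun {y} h => gn_eq_zero hp0 e he hc h) (fun r y => (gn_smul hp0 e hc r y).le) 1]
  exact vol_lt hp e he hc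

lemma gn_cont {p : ℝ} (hp : 0 < p) (e : EV k →ₗ[ℝ] EV n) (c : Fin n → ℝ) :
    Continuous (gn p e c) := by
  unfold gn
  have h1 := cont_coord e
  apply Continuous.rpow_const
  · apply continuous_finsetSum
    intro l _
    apply Continuous.mul continuous_const
    exact ((h1 l).abs).rpow_const fun _ => Or.inr hp.le
  · intro _; exact Or.inr (by positivity)

lemma Phi_pos {p : ℝ} (hp : 1 ≤ p) (e : EV k →ₗ[ℝ] EV n) (he : Function.Injective e)
    {c : Fin n → ℝ} (hc : ∀ l, 0 < c l) : 0 < Phi p e c := by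
  have hp0 : 0 < p := by linarith
  have hopen : IsOpen {y : EV k | gn p e c y < 1} :=
    isOpen_lt (gn_cont hp0 e c) continuous_const
  have hne : {y : EV k | gn p e c y < 1}.Nonempty := ⟨0, by
    show gn p e c 0 < 1
    rw [gn_zero hp0]; exact zero_lt_one⟩
  have h1 := hopen.measure_pos volume hne
  rw [vol_lt hp e he hc, ENNReal.ofReal_pos] at h1
  have h2 : 0 < Real.Gamma (k / p + 1) := Real.Gamma_pos_of_pos (by positivity)
  exact (div_pos_iff_of_pos_right h2).mp h1

lemma Phi_integrable {p : ℝ} (hp : 1 ≤ p) (e : EV k →ₗ[ℝ] EV n) (he : Function.Injective e)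
    {c : Fin n → ℝ} (hc : ∀ l, 0 < c l) :
    Integrable (fun y : EV k => rexp (-∑ l, c l * |(e y) l| ^ p)) := by
  by_contra h
  have h1 := integral_undef h
  have h2 := Phi_pos hp e he hc
  unfold Phi at h2
  rw [h1] at h2
  exact lt_irrefl _ h2

lemma Phi_anti {p : ℝ} (hp : 1 ≤ p) (e : EV k →ₗ[ℝ] EV n) (he : Function.Injective e)
    {c c' : Fin n → ℝ} (hc : ∀ l, 0 < c l) (hcc : ∀ l, c l ≤ c' l) : Phi p e c' ≤ Phi p e c := by
  have hc' : ∀ l, 0 < c' l := fun l => lt_of_lt_of_le (hc l) (hcc l)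
  unfold Phi
  apply integral_mono (Phi_integrable hp e he hc') (Phi_integrable hp e he hc)
  intro y
  simp only
  gcongr with l _
  exact hcc l

lemma Phi_scale {p : ℝ} (e : EV k →ₗ[ℝ] EV n) (c : Fin n → ℝ) (s : ℝ) :
    Phi p e (fun l => rexp (-(p * s)) * c l) = rexp (k * s) * Phi p e c := by
  unfold Phi
  have h1 : ∀ y : EV k, rexp (-∑ l, rexp (-(p * s)) * c l * |(e y) l| ^ p)
      = (fun y : EV k => rexp (-∑ l, c l * |(e y) l| ^ p)) (rexp (-s) • y) := by
    intro y
    simp only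
    congr 2
    refine Finset.sum_congr rfl fun l _ => ?_
    rw [map_smul, PiLp.smul_apply, smul_eq_mul, abs_mul, abs_of_pos (exp_pos _),
      Real.mul_rpow (exp_pos _).le (abs_nonneg _), ← Real.exp_mul]
    have : -s * p = -(p * s) := by ring
    rw [this]; ring
  have h2 := Measure.integral_comp_smul (volume : Measure (EV k))
    (fun y : EV k => rexp (-∑ l, c l * |(e y) l| ^ p)) (rexp (-s))
  rw [finrank_euclideanSpace, Fintype.card_fin, smul_eq_mul] at h2
  simp only [h1]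
  refine Eq.trans h2 ?_
  congr 1
  rw [← Real.exp_nat_mul, ← Real.exp_neg, abs_of_pos (exp_pos _)]
  congr 1; ring

theorem Phi_super {p : ℝ} (hp : 1 ≤ p) (hp2 : p ≤ 2) (e : EV k →ₗ[ℝ] EV n)
    (he : Function.Injective e) {c c' : Fin n → ℝ} (hc : ∀ l, 0 < c l) (hc' : ∀ l, 0 < c' l) :
    Phi p e c * Phi p e c' ≤ Phi p e (c ⊓ c') * Phi p e (c ⊔ c') := by
  have hp0 : 0 < p := by linarith
  have hLS : ∀ δ : ℝ, 0 < δ → LS e δ (fun c lam => rexp (-(c * lam ^ (p / 2)))) := by
    intro δ hδ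
    rcases hp2.eq_or_lt with h | h
    · rw [h, div_self two_ne_zero]
      exact LS_one e he hδ
    · exact LS_rpow e he hδ (by positivity) (by linarith)
  have hpow : ∀ z : ℝ, (z ^ 2) ^ (p / 2) = |z| ^ p := by
    intro z
    rw [← sq_abs, ← Real.rpow_natCast, ← Real.rpow_mul (abs_nonneg z)]
    congr 1; push_cast; ring
  have T : ∀ d : Fin n → ℝ, (∀ l, 0 < d l) →
      Tendsto (fun N : ℕ => IG e (1 / ((N : ℝ) + 1)) (fun c lam => rexp (-(c * lam ^ (p / 2)))) d)
        atTop (𝓝 (Phi p e d)) := by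
    intro d hd
    unfold IG Phi
    have h1 : ∀ (N : ℕ) (y : EV k), rexp (-∑ l, 1 / ((N : ℝ) + 1) * ((e y) l) ^ 2) *
        ∏ l, rexp (-(d l * (((e y) l) ^ 2) ^ (p / 2)))
        = rexp (-(1 / ((N : ℝ) + 1) * ∑ l, ((e y) l) ^ 2)) * rexp (-∑ l, d l * |(e y) l| ^ p) := by
      intro N y
      rw [← Real.exp_sum, Finset.mul_sum]
      simp only [hpow, Finset.sum_neg_distrib]
    simp only [h1]
    apply tendsto_integral_of_dominated_convergence
      (fun y : EV k => rexp (-∑ l, d l * |(e y) l| ^ p))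
    · intro N
      have hc1 := cont_coord e
      apply Continuous.aestronglyMeasurable
      apply Continuous.mul
      · fun_prop
      · apply Real.continuous_exp.comp
        apply Continuous.neg
        apply continuous_finsetSum
        intro l _
        exact continuous_const.mul (((hc1 l).abs).rpow_const fun _ => Or.inr hp0.le)
    · exact Phi_integrable hp e he hd
    · intro N
      refine Eventually.of_forall fun y => ?_
      rw [norm_mul, Real.norm_eq_abs, Real.norm_eq_abs, abs_of_pos (exp_pos (-∑ l, _))]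
      have h2 : |rexp (-(1 / ((N : ℝ) + 1) * ∑ l, ((e y) l) ^ 2))| ≤ 1 :=
        abs_exp_neg_le_one (by positivity)
      calc _ ≤ 1 * rexp (-∑ l, d l * |(e y) l| ^ p) :=
            mul_le_mul_of_nonneg_right h2 (exp_pos _).le
        _ = _ := one_mul _
    · refine Eventually.of_forall fun y => ?_
      have h3 : Tendsto (fun N : ℕ => rexp (-(1 / ((N : ℝ) + 1) * ∑ l, ((e y) l) ^ 2)))
          atTop (𝓝 1) := by
        have h4 : Tendsto (fun N : ℕ => -(1 / ((N : ℝ) + 1) * ∑ l, ((e y) l) ^ 2)) atTop (𝓝 0) := by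
          have := (tendsto_one_div_add_atTop_nhds_zero_nat (𝕜 := ℝ)).mul_const
            (∑ l, ((e y) l) ^ 2)
          rw [zero_mul] at this
          simpa using this.neg
        have := (Real.continuous_exp.tendsto 0).comp h4
        rw [Real.exp_zero] at this
        exact this
      have := h3.mul_const (rexp (-∑ l, d l * |(e y) l| ^ p))
      rw [one_mul] at this
      exact this
  have hci : ∀ l, 0 < (c ⊓ c') l := fun l => lt_inf_iff.mpr ⟨hc l, hc' l⟩
  have hcs : ∀ l, 0 < (c ⊔ c') l := fun l => lt_sup_iff.mpr (Or.inl (hc l))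
  exact le_of_tendsto_of_tendsto' ((T c hc).mul (T c' hc')) ((T _ hci).mul (T _ hcs))
    fun N => hLS _ (by positivity) c c' (fun l => (hc l).le) (fun l => (hc' l).le)

/-- The logarithm of the energy integral in logarithmic coordinates is concave. -/
theorem log_concave {p : ℝ} (hp : 1 ≤ p) (hp2 : p ≤ 2) (e : EV k →ₗ[ℝ] EV n)
    (he : Function.Injective e) :
    ConcaveOn ℝ Set.univ (fun t : Fin n → ℝ => Real.log (Phi p e fun l => rexp (-(p * t l)))) := by
  have hp0 : 0 < p := by linarith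
  have hpos : ∀ t : Fin n → ℝ, ∀ l, 0 < rexp (-(p * t l)) := fun t l => exp_pos _
  apply concave_of_super _ (k : ℝ)
  · intro t t' htt
    apply Real.log_le_log (Phi_pos hp e he (hpos t))
    apply Phi_anti hp e he (hpos t')
    intro l
    have := htt l
    gcongr
  · intro t t'
    have h1 := Phi_super hp hp2 e he (hpos t) (hpos t')
    have e1 : ((fun l => rexp (-(p * t l))) ⊓ (fun l => rexp (-(p * t' l))))
        = fun l => rexp (-(p * (t ⊔ t') l)) := by
      funext l
      simp only [Pi.inf_apply, Pi.sup_apply]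
      rcases le_total (t l) (t' l) with h | h
      · rw [sup_eq_right.mpr h, inf_eq_right]
        gcongr
      · rw [sup_eq_left.mpr h, inf_eq_left]
        gcongr
    have e2 : ((fun l => rexp (-(p * t l))) ⊔ (fun l => rexp (-(p * t' l))))
        = fun l => rexp (-(p * (t ⊓ t') l)) := by
      funext l
      simp only [Pi.inf_apply, Pi.sup_apply]
      rcases le_total (t l) (t' l) with h | h
      · rw [inf_eq_left.mpr h, sup_eq_left]
        gcongr
      · rw [inf_eq_right.mpr h, sup_eq_right]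
        gcongr
    rw [e1, e2] at h1
    rw [← Real.log_mul (Phi_pos hp e he (hpos t)).ne' (Phi_pos hp e he (hpos t')).ne',
      ← Real.log_mul (Phi_pos hp e he (hpos _)).ne' (Phi_pos hp e he (hpos _)).ne']
    apply Real.log_le_log (mul_pos (Phi_pos hp e he (hpos t)) (Phi_pos hp e he (hpos t')))
    rw [mul_comm (Phi p e fun l => rexp (-(p * (t ⊓ t') l)))]
    exact h1
  · intro t s
    have h1 := Phi_scale (p := p) e (fun l => rexp (-(p * t l))) s
    have e1 : (fun l => rexp (-(p * s)) * rexp (-(p * t l))) = fun l => rexp (-(p * (t l + s))) := by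
      funext l
      rw [← Real.exp_add]; congr 1; ring
    rw [e1] at h1
    rw [h1, Real.log_mul (exp_pos _).ne' (Phi_pos hp e he (hpos t)).ne', Real.log_exp]
    ring

end

end Pool.Agent.W5h70.LP
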