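import Pool.Agent.W5h70.LP.Gauss

open MeasureTheory Real
open scoped RealInnerProductSpace

namespace Pool.Agent.W5h70.LP

lemma exists_equiv {k n : ℕ} (T₀ : EV k →ₗ[ℝ] EV n) (h : Function.Injective T₀) :
    ∃ T : EV k ≃ₗ[ℝ] EV k, ∀ y, ‖T y‖ = ‖T₀ y‖ := by
  let e₁ := LinearEquiv.ofInjective T₀ h
  have hk : Module.finrank ℝ (LinearMap.range T₀) = k := by
    rw [← LinearEquiv.finrank_eq e₁]; simp
  let b : OrthonormalBasis (Fin k) ℝ (LinearMap.range T₀) :=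
    (stdOrthonormalBasis ℝ (LinearMap.range T₀)).reindex (finCongr hk)
  refine ⟨e₁.trans b.repr.toLinearEquiv, fun y => ?_⟩
  show ‖b.repr (e₁ y)‖ = _
  rw [LinearIsometryEquiv.norm_map]
  rfl

lemma exists_scale {k : ℕ} (T : EV k ≃ₗ[ℝ] EV k) :
    ∃ κ : ℝ, 0 < κ ∧ ∀ f : EV k → ℝ, ∫ y, f (T y) = κ * ∫ y, f y := by
  have hdet : LinearMap.det (T : EV k →ₗ[ℝ] EV k) ≠ 0 :=
    (LinearEquiv.isUnit_det' T).ne_zero
  refine ⟨|(LinearMap.det (T : EV k →ₗ[ℝ] EV k))⁻¹|, abs_pos.mpr (inv_ne_zero hdet), fun f => ?_⟩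
  have h1 := Measure.map_linearMap_addHaar_eq_smul_addHaar (volume : Measure (EV k)) hdet
  have hemb : MeasurableEmbedding (T : EV k → EV k) :=
    T.toContinuousLinearEquiv.toHomeomorph.measurableEmbedding
  have h2 := hemb.integral_map (μ := (volume : Measure (EV k))) f
  have h3 : Measure.map (T : EV k → EV k) volume
      = Measure.map ((T : EV k →ₗ[ℝ] EV k) : EV k → EV k) volume := rfl
  rw [h3, h1, integral_smul_measure, ENNReal.toReal_ofReal (abs_nonneg _)] at h2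
  rw [← h2]; rfl

/-- Diagonal scaling by square roots composed with a linear map. -/
noncomputable def dmap {k n : ℕ} (a : Fin n → ℝ) (e : EV k →ₗ[ℝ] EV n) : EV k →ₗ[ℝ] EV n where
  toFun y := WithLp.toLp 2 fun l => √(a l) * (e y) l
  map_add' y z := by ext l; simp [mul_add]
  map_smul' r y := by ext l; simp; ring

lemma norm_dmap_sq {k n : ℕ} {a : Fin n → ℝ} (ha : ∀ l, 0 ≤ a l) (e : EV k →ₗ[ℝ] EV n)
    (y : EV k) : ‖dmap a e y‖ ^ 2 = ∑ l, a l * ((e y) l) ^ 2 := by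
  rw [EuclideanSpace.norm_sq_eq]
  refine Finset.sum_congr rfl fun l _ => ?_
  show ‖√(a l) * (e y) l‖ ^ 2 = _
  rw [Real.norm_eq_abs, sq_abs, mul_pow, Real.sq_sqrt (ha l)]

lemma dmap_injective {k n : ℕ} {a : Fin n → ℝ} (ha : ∀ l, 0 < a l) (e : EV k →ₗ[ℝ] EV n)
    (he : Function.Injective e) : Function.Injective (dmap a e) := by
  intro y z hyz
  apply he
  ext l
  have h : (dmap a e y) l = (dmap a e z) l := by rw [hyz]
  have h' : √(a l) * (e y) l = √(a l) * (e z) l := h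
  exact mul_left_cancel₀ (Real.sqrt_pos.mpr (ha l)).ne' h'

/-- Gaussian integral with weights `x`. -/
noncomputable def Psi {k n : ℕ} (e : EV k →ₗ[ℝ] EV n) (x : Fin n → ℝ) : ℝ :=
  ∫ y : EV k, rexp (-∑ l, x l * ((e y) l) ^ 2)

theorem Psi_super {k n : ℕ} (e : EV k →ₗ[ℝ] EV n) (he : Function.Injective e)
    {x a b : Fin n → ℝ} (hx : ∀ l, 0 < x l) (ha : ∀ l, 0 ≤ a l) (hb : ∀ l, 0 ≤ b l) :
    Psi e (x + a) * Psi e (x + b) ≤ Psi e x * Psi e (x + a + b) := by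
  obtain ⟨T, hT⟩ := exists_equiv (dmap x e) (dmap_injective hx e he)
  obtain ⟨κ, hκ, hint⟩ := exists_scale T
  have hT2 : ∀ y, ‖T y‖ ^ 2 = ∑ l, x l * ((e y) l) ^ 2 := by
    intro y; rw [hT, norm_dmap_sq (fun l => (hx l).le)]
  let S : (Fin n → ℝ) → (EV k →L[ℝ] EV n) := fun c =>
    LinearMap.toContinuousLinearMap ((dmap c e) ∘ₗ (T.symm : EV k →ₗ[ℝ] EV k))
  have hS : ∀ {c : Fin n → ℝ}, (∀ l, 0 ≤ c l) → ∀ y, ‖S c (T y)‖ ^ 2
      = ∑ l, c l * ((e y) l) ^ 2 := by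
    intro c hc y
    have : S c (T y) = dmap c e y := by simp [S]
    rw [this, norm_dmap_sq hc]
  have h0 : Psi e x = κ * gC k := by
    unfold Psi gC
    rw [← hint]
    congr 1; funext y; rw [hT2]
  have h1 : ∀ {c : Fin n → ℝ}, (∀ l, 0 ≤ c l) → Psi e (x + c) = κ * gI (S c) := by
    intro c hc
    unfold Psi gI
    rw [← hint]
    congr 1; funext y
    rw [hT2, hS hc, ← Real.exp_add]
    congr 1
    rw [← neg_add, ← Finset.sum_add_distrib]
    congr 1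
    refine Finset.sum_congr rfl fun l _ => ?_
    rw [Pi.add_apply]; ring
  have h2 : Psi e (x + a + b) = κ * ∫ y : EV k, rexp (-‖y‖ ^ 2) *
      (rexp (-‖S a y‖ ^ 2) * rexp (-‖S b y‖ ^ 2)) := by
    unfold Psi
    rw [← hint]
    congr 1; funext y
    rw [hT2, hS ha, hS hb, ← Real.exp_add, ← Real.exp_add]
    congr 1
    rw [← neg_add, ← neg_add, ← Finset.sum_add_distrib, ← Finset.sum_add_distrib]
    congr 1
    refine Finset.sum_congr rfl fun l _ => ?_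
    simp only [Pi.add_apply]; ring
  rw [h0, h1 ha, h1 hb, h2]
  have h3 := gI_mul_le (S a) (S b)
  nlinarith [mul_le_mul_of_nonneg_left h3 (mul_pos hκ hκ).le]

end Pool.Agent.W5h70.LP
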