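import Pool.Agent.W5h70.LP.Bool
import Pool.Agent.W5h70.LP.Levy

open MeasureTheory Real Filter Topology
open scoped RealInnerProductSpace

namespace Pool.Agent.W5h70.LP

section
variable {k n : ℕ}

/-- Integral of a product of functions of the squared coordinates against a Gaussian. -/
noncomputable def IG (e : EV k →ₗ[ℝ] EV n) (δ : ℝ) (g : ℝ → ℝ → ℝ) (c : Fin n → ℝ) : ℝ :=
  ∫ y : EV k, rexp (-∑ l, δ * ((e y) l) ^ 2) * ∏ l, g (c l) (((e y) l) ^ 2)

lemma cont_coord (e : EV k →ₗ[ℝ] EV n) (l : Fin n) : Continuous fun y : EV k => (e y) l := by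
  have h : Continuous (e : EV k → EV n) := e.continuous_of_finiteDimensional
  fun_prop

lemma IG_tendsto (e : EV k →ₗ[ℝ] EV n) (he : Function.Injective e) {δ : ℝ} (hδ : 0 < δ)
    {g : ℕ → ℝ → ℝ → ℝ} {g' : ℝ → ℝ → ℝ} (c : Fin n → ℝ)
    (hc : ∀ N l, Continuous (g N (c l)))
    (hb : ∀ᶠ N in atTop, ∀ l lam, 0 ≤ lam → |g N (c l) lam| ≤ 1)
    (hlim : ∀ l lam, 0 ≤ lam → Tendsto (fun N => g N (c l) lam) atTop (𝓝 (g' (c l) lam))) :
    Tendsto (fun N => IG e δ (g N) c) atTop (𝓝 (IG e δ g' c)) := by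
  unfold IG
  apply tendsto_integral_filter_of_dominated_convergence
    (fun y : EV k => rexp (-∑ l, δ * ((e y) l) ^ 2))
  · refine Eventually.of_forall fun N => Continuous.aestronglyMeasurable ?_
    have h1 := cont_coord e
    apply Continuous.mul
    · fun_prop
    · apply continuous_finsetProd
      intro l _
      exact (hc N l).comp ((h1 l).pow 2)
  · filter_upwards [hb] with N hN
    refine Eventually.of_forall fun y => ?_
    rw [norm_mul, Real.norm_eq_abs, Real.norm_eq_abs, abs_of_pos (exp_pos _), Finset.abs_prod]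
    have : ∏ l, |g N (c l) (((e y) l) ^ 2)| ≤ 1 :=
      Finset.prod_le_one (fun l _ => abs_nonneg _) fun l _ => hN l _ (sq_nonneg _)
    calc _ ≤ rexp (-∑ l, δ * ((e y) l) ^ 2) * 1 :=
          mul_le_mul_of_nonneg_left this (exp_pos _).le
      _ = _ := mul_one _
  · exact integrable_quad e he (fun _ => hδ)
  · refine Eventually.of_forall fun y => ?_
    apply Tendsto.mul tendsto_const_nhds
    apply tendsto_finsetProd
    intro l _
    exact hlim l _ (sq_nonneg _)

/-- Log-supermodularity of `IG` for the family `g`, on nonnegative parameters. -/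
def LS (e : EV k →ₗ[ℝ] EV n) (δ : ℝ) (g : ℝ → ℝ → ℝ) : Prop :=
  ∀ c c' : Fin n → ℝ, (∀ l, 0 ≤ c l) → (∀ l, 0 ≤ c' l) →
    IG e δ g c * IG e δ g c' ≤ IG e δ g (c ⊓ c') * IG e δ g (c ⊔ c')

lemma LS_finite (e : EV k →ₗ[ℝ] EV n) (he : Function.Injective e) {δ : ℝ} (hδ : 0 < δ)
    {m : ℕ} {B s : Fin m → ℝ} (hB : ∀ j, 0 ≤ B j) (hs : ∀ j, 0 ≤ s j) :
    LS e δ (fun c lam => rexp (-(c * ∑ j, B j * (1 - rexp (-(s j * lam)))))) := by
  intro c c' hc hc'
  set g : ℕ → ℝ → ℝ → ℝ := fun M c lam =>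
    ∏ j, (1 + (-(c * (B j * (1 - rexp (-(s j * lam)))))) / M) ^ M with hg
  set g' : ℝ → ℝ → ℝ := fun c lam => rexp (-(c * ∑ j, B j * (1 - rexp (-(s j * lam))))) with hg'
  -- limits
  have hlim : ∀ (c lam : ℝ), Tendsto (fun M => g M c lam) atTop (𝓝 (g' c lam)) := by
    intro c lam
    have h1 : g' c lam = ∏ j, rexp (-(c * (B j * (1 - rexp (-(s j * lam)))))) := by
      rw [hg']
      simp only
      rw [← Real.exp_sum, Finset.mul_sum, Finset.sum_neg_distrib]
    rw [h1]
    apply tendsto_finsetProd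
    intro j _
    exact Real.tendsto_one_add_div_pow_exp _
  have hcont : ∀ (M : ℕ) (c : ℝ), Continuous (g M c) := by
    intro M c
    rw [hg]
    fun_prop
  -- eventual bound
  have hbd : ∀ d : Fin n → ℝ, (∀ l, 0 ≤ d l) → ∀ᶠ M : ℕ in atTop, ∀ l j,
      d l * B j / (M : ℝ) ≤ 1 := by
    intro d hd
    have h1 : ∀ l j, ∀ᶠ M : ℕ in atTop, d l * B j / (M : ℝ) ≤ 1 := by
      intro l j
      have h2 : Tendsto (fun M : ℕ => d l * B j / (M : ℝ)) atTop (𝓝 0) :=
        tendsto_const_div_atTop_nhds_zero_nat _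
      exact (h2.eventually_lt_const zero_lt_one).mono fun M hM => hM.le
    rw [eventually_all]
    intro l
    rw [eventually_all]
    intro j
    exact h1 l j
  have hone : ∀ (j : Fin m) (lam : ℝ), 0 ≤ lam → 0 ≤ 1 - rexp (-(s j * lam)) ∧
      1 - rexp (-(s j * lam)) ≤ 1 := by
    intro j lam hl
    refine ⟨one_sub_exp_nonneg (mul_nonneg (hs j) hl), ?_⟩
    have := Real.exp_pos (-(s j * lam)); linarith
  have habs : ∀ d : Fin n → ℝ, (∀ l, 0 ≤ d l) →
      ∀ᶠ M : ℕ in atTop, ∀ l lam, 0 ≤ lam → |g M (d l) lam| ≤ 1 := by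
    intro d hd
    filter_upwards [hbd d hd, eventually_gt_atTop 0] with M hM hM0 l lam hl
    rw [hg]
    simp only
    rw [Finset.abs_prod]
    apply Finset.prod_le_one (fun j _ => abs_nonneg _)
    intro j _
    rw [abs_pow]
    apply pow_le_one₀ (abs_nonneg _)
    obtain ⟨h1, h2⟩ := hone j lam hl
    have hMp : (0 : ℝ) < M := by exact_mod_cast hM0
    have h3 : -(d l * (B j * (1 - rexp (-(s j * lam))))) / (M : ℝ)
        = -((d l * B j / M) * (1 - rexp (-(s j * lam)))) := by ring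
    rw [h3]
    have h4 := hM l j
    have h5 : 0 ≤ d l * B j / (M : ℝ) := div_nonneg (mul_nonneg (hd l) (hB j)) hMp.le
    have h6 : (d l * B j / M) * (1 - rexp (-(s j * lam))) ≤ 1 := mul_le_one₀ h4 h1 h2
    have h7 : 0 ≤ (d l * B j / M) * (1 - rexp (-(s j * lam))) := mul_nonneg h5 h1
    rw [abs_le]
    constructor <;> linarith
  -- relation with bI
  have hrel : ∀ (M : ℕ) (d : Fin n → ℝ), IG e δ (g M) d
      = bI e δ (fun i : Fin m × Fin M => s i.1) (fun q => d q.1 * B q.2.1 / M) := by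
    intro M d
    unfold IG bI
    congr 1
    funext y
    congr 1
    rw [Fintype.prod_prod_type]
    refine Finset.prod_congr rfl fun l _ => ?_
    rw [Fintype.prod_prod_type, hg]
    simp only
    refine Finset.prod_congr rfl fun j _ => ?_
    rw [Finset.prod_const, Finset.card_univ, Fintype.card_fin]
    congr 1
    ring
  have hmain : ∀ᶠ M : ℕ in atTop, IG e δ (g M) c * IG e δ (g M) c' ≤
      IG e δ (g M) (c ⊓ c') * IG e δ (g M) (c ⊔ c') := by
    filter_upwards [hbd c hc, hbd c' hc', eventually_gt_atTop 0] with M h1 h2 hM0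
    have hMp : (0 : ℝ) < M := by exact_mod_cast hM0
    rw [hrel, hrel, hrel, hrel]
    have h3 := bI_super e he hδ (s := fun i : Fin m × Fin M => s i.1) (fun i => hs i.1)
      (β := fun q => c q.1 * B q.2.1 / M) (β' := fun q => c' q.1 * B q.2.1 / M)
      (fun q => div_nonneg (mul_nonneg (hc _) (hB _)) hMp.le) (fun q => h1 _ _)
      (fun q => div_nonneg (mul_nonneg (hc' _) (hB _)) hMp.le) (fun q => h2 _ _)
    have e1 : ((fun q : Fin n × (Fin m × Fin M) => c q.1 * B q.2.1 / (M : ℝ)) ⊓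
        (fun q => c' q.1 * B q.2.1 / (M : ℝ)))
        = fun q => (c ⊓ c') q.1 * B q.2.1 / (M : ℝ) := by
      funext q
      simp only [Pi.inf_apply]
      rw [mul_div_assoc, mul_div_assoc, mul_div_assoc]
      exact (min_mul_of_nonneg _ _ (div_nonneg (hB _) hMp.le)).symm
    have e2 : ((fun q : Fin n × (Fin m × Fin M) => c q.1 * B q.2.1 / (M : ℝ)) ⊔
        (fun q => c' q.1 * B q.2.1 / (M : ℝ)))
        = fun q => (c ⊔ c') q.1 * B q.2.1 / (M : ℝ) := by
      funext q
      simp only [Pi.sup_apply]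
      rw [mul_div_assoc, mul_div_assoc, mul_div_assoc]
      exact (max_mul_of_nonneg _ _ (div_nonneg (hB _) hMp.le)).symm
    rw [e1, e2] at h3
    exact h3
  have hci : ∀ l, 0 ≤ (c ⊓ c') l := fun l => le_inf (hc l) (hc' l)
  have hcs : ∀ l, 0 ≤ (c ⊔ c') l := fun l => le_sup_of_le_left (hc l)
  have T : ∀ d : Fin n → ℝ, (∀ l, 0 ≤ d l) →
      Tendsto (fun M => IG e δ (g M) d) atTop (𝓝 (IG e δ g' d)) := fun d hd =>
    IG_tendsto e he hδ d (fun N l => hcont N (d l)) (habs d hd) (fun l lam _ => hlim (d l) lam)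
  exact le_of_tendsto_of_tendsto ((T c hc).mul (T c' hc')) ((T _ hci).mul (T _ hcs)) hmain

/-- Log-supermodularity for the family `exp (-c lam ^ α)`, `0 < α < 1`. -/
lemma LS_rpow (e : EV k →ₗ[ℝ] EV n) (he : Function.Injective e) {δ : ℝ} (hδ : 0 < δ)
    {α : ℝ} (hα : 0 < α) (hα1 : α < 1) :
    LS e δ (fun c lam => rexp (-(c * lam ^ α))) := by
  -- first with the constant `KK α`
  have h1 : LS e δ (fun c lam => rexp (-(c * (lam ^ α * KK α)))) := by
    intro c c' hc hc'
    set g : ℕ → ℝ → ℝ → ℝ := fun N c lam =>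
      rexp (-(c * ∑ j : Fin ((N + 1) * (N + 1)),
        ((1 / ((N : ℝ) + 1)) * ((((j : ℕ) : ℝ) + 1) / ((N : ℝ) + 1)) ^ (-1 - α)) *
        (1 - rexp (-(((((j : ℕ) : ℝ) + 1) / ((N : ℝ) + 1)) * lam))))) with hg
    have hLS : ∀ N, LS e δ (g N) := by
      intro N
      rw [hg]
      exact LS_finite e he hδ (B := fun j : Fin ((N + 1) * (N + 1)) =>
        (1 / ((N : ℝ) + 1)) * ((((j : ℕ) : ℝ) + 1) / ((N : ℝ) + 1)) ^ (-1 - α))
        (s := fun j => (((j : ℕ) : ℝ) + 1) / ((N : ℝ) + 1))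
        (fun j => by positivity) (fun j => by positivity)
    have hK : ∀ (N : ℕ) (c lam : ℝ), g N c lam = rexp (-(c * KN α lam N)) := by
      intro N c lam
      rw [hg]
      simp only
      unfold KN
      rw [← Fin.sum_univ_eq_sum_range (fun j : ℕ => (1 / ((N : ℝ) + 1)) *
        ph α lam (((j : ℝ) + 1) / ((N : ℝ) + 1)))]
      congr 3
      refine Finset.sum_congr rfl fun j _ => ?_
      rw [ph_of_pos (by positivity)]
      ring
    have hlim : ∀ (c lam : ℝ), 0 ≤ lam → Tendsto (fun N => g N c lam) atTop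
        (𝓝 (rexp (-(c * (lam ^ α * KK α))))) := by
      intro c lam hl
      simp only [hK]
      exact (Real.continuous_exp.tendsto _).comp ((KN_tendsto hα hα1 hl).const_mul c).neg
    have hKN : ∀ (N : ℕ) (lam : ℝ), 0 ≤ lam → 0 ≤ KN α lam N := by
      intro N lam hl
      unfold KN
      exact Finset.sum_nonneg fun j _ => mul_nonneg (by positivity) (ph_nonneg hl _)
    have hcont : ∀ (N : ℕ) (c : ℝ), Continuous (g N c) := by
      intro N c; rw [hg]; fun_prop
    have T : ∀ d : Fin n → ℝ, (∀ l, 0 ≤ d l) → Tendsto (fun N => IG e δ (g N) d) atTop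
        (𝓝 (IG e δ (fun c lam => rexp (-(c * (lam ^ α * KK α)))) d)) := by
      intro d hd
      refine IG_tendsto e he hδ d (fun N l => hcont N (d l)) (Eventually.of_forall ?_)
        (fun l lam hl => hlim (d l) lam hl)
      intro N l lam hl
      rw [hK]
      exact abs_exp_neg_le_one (mul_nonneg (hd l) (hKN N lam hl))
    have hci : ∀ l, 0 ≤ (c ⊓ c') l := fun l => le_inf (hc l) (hc' l)
    have hcs : ∀ l, 0 ≤ (c ⊔ c') l := fun l => le_sup_of_le_left (hc l)
    exact le_of_tendsto_of_tendsto' ((T c hc).mul (T c' hc')) ((T _ hci).mul (T _ hcs))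
      fun N => hLS N c c' hc hc'
  intro c c' hc hc'
  have hK := KK_pos hα hα1
  have h2 := h1 (fun l => c l / KK α) (fun l => c' l / KK α)
    (fun l => div_nonneg (hc l) hK.le) (fun l => div_nonneg (hc' l) hK.le)
  have h3 : ∀ d : Fin n → ℝ, IG e δ (fun c lam => rexp (-(c * (lam ^ α * KK α))))
      (fun l => d l / KK α) = IG e δ (fun c lam => rexp (-(c * lam ^ α))) d := by
    intro d
    unfold IG
    congr 1; funext y
    congr 1
    refine Finset.prod_congr rfl fun l _ => ?_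
    field_simp
  have e1 : ((fun l => c l / KK α) ⊓ (fun l => c' l / KK α)) = fun l => (c ⊓ c') l / KK α := by
    funext l
    exact (min_div_div_right hK.le _ _)
  have e2 : ((fun l => c l / KK α) ⊔ (fun l => c' l / KK α)) = fun l => (c ⊔ c') l / KK α := by
    funext l
    exact (max_div_div_right hK.le _ _)
  rw [e1, e2, h3, h3, h3, h3] at h2
  exact h2

/-- The case `α = 1`. -/
lemma LS_one (e : EV k →ₗ[ℝ] EV n) (he : Function.Injective e) {δ : ℝ} (hδ : 0 < δ) :
    LS e δ (fun c lam => rexp (-(c * lam ^ (1 : ℝ)))) := by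
  intro c c' hc hc'
  have h1 : ∀ d : Fin n → ℝ, IG e δ (fun c lam => rexp (-(c * lam ^ (1 : ℝ)))) d
      = Psi e (fun l => δ + d l) := by
    intro d
    unfold IG Psi
    congr 1; funext y
    simp only [Real.rpow_one]
    rw [← Real.exp_sum, ← Real.exp_add]
    congr 1
    rw [Finset.sum_neg_distrib, ← neg_add, ← Finset.sum_add_distrib]
    congr 1
    refine Finset.sum_congr rfl fun l _ => ?_
    ring
  rw [h1, h1, h1, h1]
  have hx : ∀ l, 0 < δ + (c ⊓ c') l := fun l => by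
    have : 0 ≤ (c ⊓ c') l := le_inf (hc l) (hc' l)
    linarith
  have ha : ∀ l, 0 ≤ c l - (c ⊓ c') l := fun l => sub_nonneg.mpr inf_le_left
  have hb : ∀ l, 0 ≤ c' l - (c ⊓ c') l := fun l => sub_nonneg.mpr inf_le_right
  have h2 := Psi_super e he (x := fun l => δ + (c ⊓ c') l) (a := fun l => c l - (c ⊓ c') l)
    (b := fun l => c' l - (c ⊓ c') l) hx ha hb
  have e1 : ((fun l => δ + (c ⊓ c') l) + (fun l => c l - (c ⊓ c') l)) = fun l => δ + c l := by
    funext l; simp only [Pi.add_apply]; ring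
  have e2 : ((fun l => δ + (c ⊓ c') l) + (fun l => c' l - (c ⊓ c') l)) = fun l => δ + c' l := by
    funext l; simp only [Pi.add_apply]; ring
  have e3 : ((fun l => δ + c l) + (fun l => c' l - (c ⊓ c') l)) = fun l => δ + (c ⊔ c') l := by
    funext l
    simp only [Pi.add_apply, Pi.inf_apply, Pi.sup_apply]
    have := min_add_max (c l) (c' l)
    have h' : c l ⊓ c' l + c l ⊔ c' l = c l + c' l := this
    linarith
  rw [e1, e2, e3] at h2
  exact h2

end

end Pool.Agent.W5h70.LP
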